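import Pool.Agent.U896.VM.V6
import Pool.Agent.U896.SV.FinalL
import Pool.Agent.U896.VM.PubV

/-!
# Nearly nondegenerate forms: the main theorem, with the public definitions
-/

set_option autoImplicit false

open Set Filter Topology MeasureTheory
open scoped Manifold ContDiff

noncomputable section

namespace Pool.Agent.U896.VMP

open Pool.Agent.Y501
open Pool.Agent.Y501.SYP
open Pool.Agent.U896.SWP
open Pool.Agent.U896.SVP

section

variable {d : ℕ} {X : Type} [TopologicalSpace X] [ChartedSpace (ES d) X]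

attribute [local instance] cs mf

theorem vm_at {σ : Form (ES d) X 2} {x : X} (h : NearlyNondegenerate σ x) :
    VM.VMp (d := d) (SY.pb (d := d) (X := X) (chartAt (SY.E d) x).symm σ)
      (chartAt (SY.E d) x x) := by
  obtain ⟨c, R, hc, hR, h1⟩ := h
  refine ⟨c, R, hc, hR, fun δ hδ => ?_⟩
  obtain ⟨r, hr, h2⟩ := h1 δ hδ
  refine ⟨r, hr, fun y hy t ht htr => ?_⟩
  obtain ⟨C, hC1, hC2, hC3, h3⟩ := h2 y hy t ht htr
  exact ⟨C, ⟨hC1, hC2, hC3⟩, h3⟩

theorem vm_of [IsManifold 𝓘(ℝ, ES d) ∞ X] {a : ℝ} (ha1 : a < 1) (had : a ≤ d)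
    {σ : Form (ES d) X 2} (hi : LocInt σ)
    (hw : WeaklyClosed σ) (hM : MorreyGrowth a σ) (h : ∀ x, NearlyNondegenerate σ x)
    (z : X) (p : SY.E d) (hp : p ∈ (chartAt (SY.E d) z).target) :
    VM.VMp (d := d) (SY.pb (d := d) (X := X) (chartAt (SY.E d) z).symm σ) p := by
  obtain ⟨x, hx⟩ : ∃ x, x = (chartAt (SY.E d) z).symm p := ⟨_, rfl⟩
  have h1 := mem_chart_target (SY.E d) x
  refine VM.VMp.trans (d := d) (X := X) (p₁ := chartAt (SY.E d) x x) ha1 had h1 hp ?_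
    (lc_of hi hw x _ h1) (mor_of hM x _ h1) (vm_at (h x))
  rw [(chartAt (SY.E d) x).left_inv (mem_chart_source (SY.E d) x), hx]

theorem nd_pt [IsManifold 𝓘(ℝ, ES d) ∞ X] {w : Form (ES d) X 2} (z : X) {p : SY.E d}
    (hp : p ∈ (chartAt (SY.E d) z).target) {c : ℝ} (hc : 0 < c)
    (h : VM.NDg (d := d) c (SY.pb (d := d) (X := X) (chartAt (SY.E d) z).symm w p))
    (v : TangentSpace (𝓡 d) ((chartAt (SY.E d) z).symm p))
    (hv : ∀ u : TangentSpace (𝓡 d) ((chartAt (SY.E d) z).symm p),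
      w ((chartAt (SY.E d) z).symm p) ![v, u] = 0) : v = 0 := by
  obtain ⟨v', hv'⟩ : ∃ v', v' = Pool.Agent.Y455.SY.B z p v := ⟨_, rfl⟩
  have hA : Pool.Agent.Y455.SY.A z p v' = v := by
    rw [hv']
    exact Pool.Agent.Y455.SY.AB z hp v
  obtain ⟨u, -, h1⟩ := h v'
  have h2 : SY.pb (d := d) (X := X) (chartAt (SY.E d) z).symm w p ![v', u] =
      w ((chartAt (SY.E d) z).symm p) ![v, Pool.Agent.Y455.SY.A z p u] := by
    rw [← hA]
    exact Pool.Agent.Y515.SY.comp_pair _ _ _ _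
  have h4 : w ((chartAt (SY.E d) z).symm p) ![v, Pool.Agent.Y455.SY.A z p u] = 0 := hv _
  have h5 : c * ‖v'‖ ≤ 0 := h1.trans (le_of_eq (h2.trans h4))
  have h3 : ‖v'‖ = 0 := le_antisymm (by nlinarith) (norm_nonneg _)
  rw [norm_eq_zero] at h3
  rw [← hA, h3]
  exact map_zero _

theorem nondeg_of [IsManifold 𝓘(ℝ, ES d) ∞ X] {w : Form (ES d) X 2}
    (h : ∀ z : X, ∃ c : ℝ, 0 < c ∧ VM.NDg (d := d) c
      (SY.pb (d := d) (X := X) (chartAt (SY.E d) z).symm w (chartAt (SY.E d) z z))) :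
    NondegForm w := by
  intro x
  obtain ⟨c, hc, h1⟩ := h x
  obtain ⟨p, hp⟩ : ∃ p, p = chartAt (SY.E d) x x := ⟨_, rfl⟩
  have hpt : p ∈ (chartAt (SY.E d) x).target := by rw [hp]; exact mem_chart_target (SY.E d) x
  have hpx : (chartAt (SY.E d) x).symm p = x := by
    rw [hp]
    exact (chartAt (SY.E d) x).left_inv (mem_chart_source (SY.E d) x)
  rw [← hp] at h1
  have key := nd_pt x hpt hc h1
  rw [hpx] at key
  exact key

theorem nearly [IsManifold 𝓘(ℝ, ES d) ∞ X] [CompactSpace X] [T2Space X] (hd : 0 < d)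
    {a : ℝ} (ha : 0 ≤ a) (ha1 : a < 1) (K : Set X) (hK : IsClosed K)
    (σ : Form (ES d) X 2) (hσ : ClosedOff σ K) (hi : LocInt σ)
    (hw : WeaklyClosed σ) (hM : MorreyGrowth a σ) (hσn : ∀ x, NearlyNondegenerate σ x)
    (U : Set X) (hU : IsOpen U) (hKU : K ⊆ U) :
    ∃ w : Form (ES d) X 2, IsSmooth w ∧ IsClosedForm w ∧ NondegForm w ∧
      ∀ x, x ∉ U → w x = σ x := by
  have had : a ≤ d := by
    have : (1 : ℝ) ≤ d := by exact_mod_cast hd
    linarith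
  obtain ⟨w, h1, h2, h3, h4⟩ := VM.mainV (d := d) (X := X) ha ha1 had
    Pool.Agent.Y394.SY.t_SM Pool.Agent.Y949.SY.t_PATCH2 (K := K) hK (σ := σ)
    ⟨fun V φ hV hφ hp => (hσ V φ ⟨hV, hφ⟩ hp).1,
      fun V φ hV hφ hp p hpV => (hσ V φ ⟨hV, hφ⟩ hp).2 p hpV, lc_of hi hw, mor_of hM,
      vm_of ha1 had hi hw hM hσn⟩ hU hKU
  exact ⟨w, (smooth_iff w).2 h1, (closed_iff w).2 h2, nondeg_of h3, h4⟩

end

end Pool.Agent.U896.VMP
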