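import Pool.Agent.U896.SW.RegM
import Pool.Agent.U896.SV.AvL

/-!
# Nearly nondegenerate forms: distances to convex sets
-/

set_option autoImplicit false

open Set Filter Topology MeasureTheory
open scoped Manifold ContDiff ENNReal

noncomputable section

namespace Pool.Agent.U896.VM

open Pool.Agent.Y501.SY (E Moll S_SM)
open Pool.Agent.Y515.SY
open Pool.Agent.U896
open Pool.Agent.U896.SE hiding sq aff_null
open Pool.Agent.U896.SW

variable {d : ℕ}

/-- forms with a lower bound -/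
def NDg (c : ℝ) (η : Al d 2) : Prop := ∀ v : E d, ∃ w : E d, ‖w‖ ≤ 1 ∧ c * ‖v‖ ≤ η ![v, w]

theorem NDg.mono {c c' : ℝ} {η : Al d 2} (h : NDg c η) (hc : c' ≤ c) : NDg c' η := by
  intro v
  obtain ⟨w, hw, h1⟩ := h v
  exact ⟨w, hw, le_trans (mul_le_mul_of_nonneg_right hc (norm_nonneg _)) h1⟩

theorem NDg.near {c τ : ℝ} {η ζ : Al d 2} (h : NDg c η) (hζ : ‖ζ - η‖ ≤ τ) : NDg (c - τ) ζ := by
  intro v
  obtain ⟨w, hw, h1⟩ := h v
  refine ⟨w, hw, ?_⟩
  have h2 : ζ ![v, w] = η ![v, w] + (ζ - η) ![v, w] := by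
    change _ = _ + (ζ ![v, w] - η ![v, w])
    ring
  have h3 := (abs_le.1 (two_bound (ζ - η) v w)).1
  have h4 : ‖ζ - η‖ * (‖v‖ * ‖w‖) ≤ τ * ‖v‖ := by
    calc ‖ζ - η‖ * (‖v‖ * ‖w‖) ≤ ‖ζ - η‖ * (‖v‖ * 1) := by gcongr
      _ = ‖ζ - η‖ * ‖v‖ := by ring
      _ ≤ τ * ‖v‖ := by gcongr
  rw [h2, sub_mul]
  linarith

/-- convex sets of forms with a lower bound -/
structure CN (c : ℝ) (C : Set (Al d 2)) : Prop where
  conv : Convex ℝ C
  ne : C.Nonempty
  nd : ∀ η ∈ C, NDg c η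

theorem CN.mono {c c' : ℝ} {C : Set (Al d 2)} (h : CN c C) (hc : c' ≤ c) : CN c' C :=
  ⟨h.conv, h.ne, fun η hη => (h.nd η hη).mono hc⟩

theorem CN.cth {c τ : ℝ} {C : Set (Al d 2)} (h : CN c C) (hτ : 0 < τ) :
    CN (c - 2 * τ) (Metric.cthickening τ C) := by
  refine ⟨h.conv.cthickening τ, h.ne.mono (Metric.self_subset_cthickening C), fun ζ hζ => ?_⟩
  have h1 : ζ ∈ Metric.thickening (2 * τ) C :=
    Metric.cthickening_subset_thickening' (by positivity) (by linarith) C hζ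
  obtain ⟨η, hη, h2⟩ := Metric.mem_thickening_iff.1 h1
  rw [dist_eq_norm] at h2
  exact (h.nd η hη).near h2.le

theorem infDist_cth {W : Type} [NormedAddCommGroup W] {C : Set W} (hC : C.Nonempty) {τ : ℝ}
    {m e : W} (he : ‖e‖ ≤ τ) :
    Metric.infDist (m + e) (Metric.cthickening τ C) ≤ Metric.infDist m C := by
  rw [Metric.le_infDist hC]
  intro c hc
  have h1 : c + e ∈ Metric.cthickening τ C := by
    refine Metric.mem_cthickening_of_dist_le (c + e) c τ C hc ?_
    rw [dist_eq_norm, add_sub_cancel_left]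
    exact he
  refine (Metric.infDist_le_dist_of_mem h1).trans (le_of_eq ?_)
  rw [dist_add_right]

theorem infDist_cth0 {W : Type} [NormedAddCommGroup W] {C : Set W} (hC : C.Nonempty) {τ : ℝ}
    {m : W} (hm : Metric.infDist m C ≤ τ) : Metric.infDist m (Metric.cthickening τ C) = 0 := by
  refine Metric.infDist_zero_of_mem ?_
  rw [Metric.mem_cthickening_iff]
  have h1 : Metric.infEDist m C ≠ ⊤ := Metric.infEDist_ne_top hC
  rw [← ENNReal.ofReal_toReal h1]
  exact ENNReal.ofReal_le_ofReal hm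

theorem infDist_convex {W : Type} [NormedAddCommGroup W] [NormedSpace ℝ W] {C : Set W}
    (hC : Convex ℝ C) (hne : C.Nonempty) : ConvexOn ℝ univ (fun x => Metric.infDist x C) := by
  refine ⟨convex_univ, fun x _ y _ a b ha hb hab => ?_⟩
  refine le_of_forall_pos_le_add fun ε hε => ?_
  obtain ⟨x', hx', hx⟩ := (Metric.infDist_lt_iff (x := x) (r := Metric.infDist x C + ε) hne).1
    (by linarith)
  obtain ⟨y', hy', hy⟩ := (Metric.infDist_lt_iff (x := y) (r := Metric.infDist y C + ε) hne).1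
    (by linarith)
  have h1 : a • x' + b • y' ∈ C := hC hx' hy' ha hb hab
  refine (Metric.infDist_le_dist_of_mem h1).trans ?_
  rw [dist_eq_norm] at hx hy ⊢
  have h2 : a • x + b • y - (a • x' + b • y') = a • (x - x') + b • (y - y') := by
    rw [smul_sub, smul_sub]
    abel
  rw [h2]
  refine (norm_add_le _ _).trans ?_
  rw [norm_smul, norm_smul, Real.norm_of_nonneg ha, Real.norm_of_nonneg hb]
  change _ ≤ a * Metric.infDist x C + b * Metric.infDist y C + ε
  have h3 : a * ‖x - x'‖ ≤ a * (Metric.infDist x C + ε) := mul_le_mul_of_nonneg_left hx.le ha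
  have h4 : b * ‖y - y'‖ ≤ b * (Metric.infDist y C + ε) := mul_le_mul_of_nonneg_left hy.le hb
  have h5 : a * ε + b * ε = ε := by rw [← add_mul, hab, one_mul]
  linarith

theorem infDist_bd {W : Type} [NormedAddCommGroup W] (C : Set W) (x : W) :
    Metric.infDist x C ≤ Metric.infDist 0 C + ‖x‖ := by
  have h1 := Metric.infDist_le_infDist_add_dist (s := C) (x := x) (y := 0)
  rwa [dist_zero_right] at h1

/-- Jensen's inequality for the distance to a convex set -/
theorem jensen {ρ : E d → ℝ} {ε : ℝ} (hρ : Moll ε ρ) {g : E d → Al d 2}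
    (hg : Integrable (fun y => ρ y • g y)) (hgm : AEStronglyMeasurable g volume)
    {C : Set (Al d 2)} (hC : Convex ℝ C) (hne : C.Nonempty) :
    ENNReal.ofReal (Metric.infDist (∫ y, ρ y • g y) C) ≤
      ∫⁻ y, ENNReal.ofReal (ρ y) * ENNReal.ofReal (Metric.infDist (g y) C) := by
  have hm : Measurable (fun y => ENNReal.ofReal (ρ y)) :=
    hρ.smooth.continuous.measurable.ennreal_ofReal
  have htop : ∀ᵐ y ∂(volume : Measure (E d)), ENNReal.ofReal (ρ y) < ⊤ :=
    Eventually.of_forall fun y => ENNReal.ofReal_lt_top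
  obtain ⟨μ, hμ⟩ : ∃ μ : Measure (E d), μ = volume.withDensity fun y => ENNReal.ofReal (ρ y) :=
    ⟨_, rfl⟩
  have hprob : IsProbabilityMeasure μ := by
    refine ⟨?_⟩
    rw [hμ, withDensity_apply _ MeasurableSet.univ, Measure.restrict_univ]
    exact moll_lint hρ
  have hac : μ ≪ volume := by rw [hμ]; exact withDensity_absolutelyContinuous _ _
  have htr : ∀ y, (ENNReal.ofReal (ρ y)).toReal = ρ y := fun y =>
    ENNReal.toReal_ofReal (hρ.nonneg y)
  have hgi : Integrable g μ := by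
    rw [hμ, integrable_withDensity_iff_integrable_smul' hm htop]
    refine hg.congr (Eventually.of_forall fun y => ?_)
    dsimp only
    rw [htr]
  have hdi : Integrable (fun y => Metric.infDist (g y) C) μ := by
    refine ((integrable_const (Metric.infDist 0 C)).add hgi.norm).mono' ?_
      (Eventually.of_forall fun y => ?_)
    · exact ((Metric.continuous_infDist_pt C).comp_aestronglyMeasurable hgm).mono_ac hac
    · rw [Real.norm_of_nonneg Metric.infDist_nonneg]
      exact infDist_bd C (g y)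
  have h1 := (infDist_convex hC hne).map_integral_le (μ := μ) (f := g)
    (Metric.continuous_infDist_pt C).continuousOn isClosed_univ
    (Eventually.of_forall fun _ => mem_univ _) hgi hdi
  have h2 : ∫ y, g y ∂μ = ∫ y, ρ y • g y := by
    rw [hμ, integral_withDensity_eq_integral_toReal_smul hm htop]
    refine integral_congr_ae (Eventually.of_forall fun y => ?_)
    dsimp only
    rw [htr]
  rw [h2] at h1
  refine (ENNReal.ofReal_le_ofReal h1).trans ?_
  rw [ofReal_integral_eq_lintegral_ofReal hdi (Eventually.of_forall fun _ => Metric.infDist_nonneg),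
    hμ, lintegral_withDensity_eq_lintegral_mul_non_measurable _ hm htop]
  exact le_rfl

theorem comp_sub_norm (η : Al d 2) (T S : E d →L[ℝ] E d) :
    ‖η.compContinuousLinearMap T - η.compContinuousLinearMap S‖ ≤
      ‖η‖ * ((‖T‖ + ‖S‖) * ‖T - S‖) := by
  refine ContinuousAlternatingMap.opNorm_le_bound _ (by positivity) fun m => ?_
  rw [pair_eta m]
  obtain ⟨v, hv⟩ : ∃ v, v = m 0 := ⟨_, rfl⟩
  obtain ⟨w, hw⟩ : ∃ w, w = m 1 := ⟨_, rfl⟩
  rw [← hv, ← hw]
  have h1 : (η.compContinuousLinearMap T - η.compContinuousLinearMap S) ![v, w] =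
      η ![(T - S) v, T w] + η ![S v, (T - S) w] := by
    change (η.compContinuousLinearMap T) ![v, w] - (η.compContinuousLinearMap S) ![v, w] = _
    rw [comp_pair, comp_pair, ← lL_apply η ((T - S) v) (T w), ← lR_apply η (S v) ((T - S) w)]
    rw [ContinuousLinearMap.sub_apply, ContinuousLinearMap.sub_apply, map_sub, map_sub, lL_apply,
      lL_apply, lR_apply, lR_apply]
    ring
  rw [h1, Fin.prod_univ_two]
  change ‖η ![(T - S) v, T w] + η ![S v, (T - S) w]‖ ≤ _ * (‖v‖ * ‖w‖)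
  refine (norm_add_le _ _).trans ?_
  rw [Real.norm_eq_abs, Real.norm_eq_abs]
  have h2 := two_bound η ((T - S) v) (T w)
  have h3 := two_bound η (S v) ((T - S) w)
  have h4 := (T - S).le_opNorm v
  have h5 := (T - S).le_opNorm w
  have h6 := T.le_opNorm w
  have h7 := S.le_opNorm v
  have h8 : ‖(T - S) v‖ * ‖T w‖ ≤ (‖T - S‖ * ‖v‖) * (‖T‖ * ‖w‖) := by gcongr
  have h9 : ‖S v‖ * ‖(T - S) w‖ ≤ (‖S‖ * ‖v‖) * (‖T - S‖ * ‖w‖) := by gcongr
  calc _ ≤ ‖η‖ * (‖(T - S) v‖ * ‖T w‖) + ‖η‖ * (‖S v‖ * ‖(T - S) w‖) := add_le_add h2 h3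
    _ ≤ ‖η‖ * ((‖T - S‖ * ‖v‖) * (‖T‖ * ‖w‖)) + ‖η‖ * ((‖S‖ * ‖v‖) * (‖T - S‖ * ‖w‖)) := by
        gcongr
    _ = _ := by ring

/-- the average and the regularization -/
theorem JJ_near {ρ χ : E d → ℝ} {ε κ τ : ℝ} (hρ : Moll ε ρ) {Φ : E d → Al d 2}
    (hΦ : Integrable Φ) {q : E d} (hq : 0 < χ q) (hκ : ‖fderiv ℝ χ q‖ * ε ≤ κ) (hκ1 : κ ≤ 1)
    (hτ : 3 * κ * (∫ y, ρ y * ‖Φ (q + χ q • y)‖) ≤ τ) :
    ‖JJ ρ χ Φ q - ∫ y, ρ y • Φ (q + χ q • y)‖ ≤ τ := by
  have hρc := moll_cs hρ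
  have hi1 := JJ_int' (χ := χ) hρ.smooth.continuous hρc hΦ hq
  have hn : Integrable (fun y => ρ y * ‖Φ (q + χ q • y)‖) :=
    II_int' (χ := χ) hρ.smooth.continuous hρc hΦ.norm hq
  have hA : Integrable (fun y => Φ (q + χ q • y)) := aff_int hΦ q hq.ne'
  have hi2 : Integrable (fun y => ρ y • Φ (q + χ q • y)) := by
    refine hn.mono' (hρ.smooth.continuous.aestronglyMeasurable.smul hA.aestronglyMeasurable)
      (Eventually.of_forall fun y => ?_)
    rw [norm_smul, Real.norm_of_nonneg (hρ.nonneg y)]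
  unfold JJ
  rw [← integral_sub hi1 hi2]
  refine le_trans ?_ hτ
  rw [← integral_const_mul]
  refine norm_integral_le_of_norm_le (hn.const_mul _) (Eventually.of_forall fun y => ?_)
  have h0 : ρ y • (Φ (q + χ q • y)).compContinuousLinearMap (LL (fderiv ℝ χ q) y) -
      ρ y • Φ (q + χ q • y) = ρ y • ((Φ (q + χ q • y)).compContinuousLinearMap
        (LL (fderiv ℝ χ q) y) - Φ (q + χ q • y)) := (smul_sub _ _ _).symm
  rw [h0, norm_smul, Real.norm_of_nonneg (hρ.nonneg y)]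
  by_cases hy : ‖y‖ < ε
  · have h1 := comp_sub_norm (Φ (q + χ q • y)) (LL (fderiv ℝ χ q) y)
      (ContinuousLinearMap.id ℝ (E d))
    have h2 : (Φ (q + χ q • y)).compContinuousLinearMap (ContinuousLinearMap.id ℝ (E d)) =
        Φ (q + χ q • y) := by
      apply ContinuousAlternatingMap.ext
      intro v
      rfl
    rw [h2] at h1
    have h3 : LL (fderiv ℝ χ q) y - ContinuousLinearMap.id ℝ (E d) =
        (fderiv ℝ χ q).smulRight y := by
      unfold LL
      rw [add_sub_cancel_left]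
    rw [h3, ContinuousLinearMap.norm_smulRight_apply] at h1
    have h4 : ‖fderiv ℝ χ q‖ * ‖y‖ ≤ κ :=
      (mul_le_mul_of_nonneg_left hy.le (norm_nonneg _)).trans hκ
    have h5 := LL_norm (fderiv ℝ χ q) y
    have h6 := ContinuousLinearMap.norm_id_le (𝕜 := ℝ) (E := E d)
    have h7 : (‖LL (fderiv ℝ χ q) y‖ + ‖ContinuousLinearMap.id ℝ (E d)‖) *
        (‖fderiv ℝ χ q‖ * ‖y‖) ≤ 3 * κ := by
      refine mul_le_mul (by linarith) h4 (by positivity) (by norm_num)
    calc ρ y * _ ≤ ρ y * (‖Φ (q + χ q • y)‖ * (3 * κ)) := by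
          refine mul_le_mul_of_nonneg_left (h1.trans ?_) (hρ.nonneg y)
          exact mul_le_mul_of_nonneg_left h7 (norm_nonneg _)
      _ = 3 * κ * (ρ y * ‖Φ (q + χ q • y)‖) := by ring
  · rw [hρ.supp y (not_lt.1 hy)]
    simp

/-- the distance of the regularization to a convex set -/
theorem JJ_dist {ρ χ : E d → ℝ} {ε κ τ : ℝ} (hρ : Moll ε ρ) {Φ : E d → Al d 2}
    (hΦ : Integrable Φ) {q : E d} (hq : 0 < χ q) (hκ : ‖fderiv ℝ χ q‖ * ε ≤ κ) (hκ1 : κ ≤ 1)
    (hτ : 3 * κ * (∫ y, ρ y * ‖Φ (q + χ q • y)‖) ≤ τ) {C : Set (Al d 2)} (hC : Convex ℝ C)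
    (hne : C.Nonempty) :
    ENNReal.ofReal (Metric.infDist (JJ ρ χ Φ q) (Metric.cthickening τ C)) ≤
      ∫⁻ y, ENNReal.ofReal (ρ y) * ENNReal.ofReal (Metric.infDist (Φ (q + χ q • y)) C) := by
  have h1 := JJ_near hρ hΦ hq hκ hκ1 hτ
  have hρc := moll_cs hρ
  have hn : Integrable (fun y => ρ y * ‖Φ (q + χ q • y)‖) :=
    II_int' (χ := χ) hρ.smooth.continuous hρc hΦ.norm hq
  have hA : Integrable (fun y => Φ (q + χ q • y)) := aff_int hΦ q hq.ne'
  have hi2 : Integrable (fun y => ρ y • Φ (q + χ q • y)) := by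
    refine hn.mono' (hρ.smooth.continuous.aestronglyMeasurable.smul hA.aestronglyMeasurable)
      (Eventually.of_forall fun y => ?_)
    rw [norm_smul, Real.norm_of_nonneg (hρ.nonneg y)]
  refine le_trans ?_ (jensen hρ hi2 hA.aestronglyMeasurable hC hne)
  refine ENNReal.ofReal_le_ofReal ?_
  have h2 := infDist_cth (m := ∫ y, ρ y • Φ (q + χ q • y)) hne h1
  rwa [add_sub_cancel] at h2

/-- averages over small balls -/
theorem av_loc {ρ : E d → ℝ} {ε A : ℝ} (hA0 : 0 ≤ A) (hρ : Moll ε ρ)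
    (hA : ∀ y, ρ y ≤ A * (ε⁻¹) ^ d) (f : E d → ℝ≥0∞) {q : E d} {c : ℝ} (hε : 0 < ε) (hc : 0 < c) :
    ∫⁻ y, ENNReal.ofReal (ρ y) * f (q + c • y) ≤
      ENNReal.ofReal (A * ((c * ε)⁻¹) ^ d) * ∫⁻ x in Metric.ball q (c * ε), f x := by
  have hfd : ∀ y : E d, HasFDerivAt (fun y => q + c • y) (c • ContinuousLinearMap.id ℝ (E d)) y :=
    fun y => ((hasFDerivAt_id y).const_smul c).const_add q
  have h1 := lint_pull (O := Metric.ball q (c * ε)) (O' := Metric.ball (0 : E d) ε)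
    (ψ := fun y => q + c • y) Metric.isOpen_ball
    (fun y _ => by rw [(hfd y).fderiv]; exact hfd y)
    (fun y hy => by
      rw [mem_ball_zero_iff] at hy
      rw [Metric.mem_ball, dist_eq_norm, add_sub_cancel_left, norm_smul, Real.norm_of_nonneg hc.le]
      exact mul_lt_mul_of_pos_left hy hc)
    (fun x _ y _ hxy => by
      have h2 : c • x = c • y := add_left_cancel hxy
      exact smul_right_injective _ hc.ne' h2)
    (μ := c ^ d) (by positivity) (fun y _ => by
      rw [(hfd y).fderiv]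
      have h2 : (c • ContinuousLinearMap.id ℝ (E d)).det = c ^ d := by
        have h3 : (c • ContinuousLinearMap.id ℝ (E d)).det =
          LinearMap.det (c • (LinearMap.id : E d →ₗ[ℝ] E d)) := rfl
        rw [h3, LinearMap.det_smul, LinearMap.det_id, mul_one, finrank_euclideanSpace_fin]
      rw [h2, abs_of_nonneg (by positivity)]) f
  have h2 : ∀ y, ENNReal.ofReal (ρ y) * f (q + c • y) ≤
      (Metric.ball (0 : E d) ε).indicator
        (fun y => ENNReal.ofReal (A * (ε⁻¹) ^ d) * f (q + c • y)) y := by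
    intro y
    by_cases hy : y ∈ Metric.ball (0 : E d) ε
    · rw [indicator_of_mem hy]
      exact mul_le_mul_left (ENNReal.ofReal_le_ofReal (hA y)) _
    · rw [mem_ball_zero_iff, not_lt] at hy
      rw [hρ.supp y hy, ENNReal.ofReal_zero, zero_mul]
      exact bot_le
  calc ∫⁻ y, ENNReal.ofReal (ρ y) * f (q + c • y)
      ≤ ∫⁻ y in Metric.ball (0 : E d) ε, ENNReal.ofReal (A * (ε⁻¹) ^ d) * f (q + c • y) := by
        rw [← lintegral_indicator Metric.isOpen_ball.measurableSet]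
        exact lintegral_mono h2
    _ = ENNReal.ofReal (A * (ε⁻¹) ^ d) * ∫⁻ y in Metric.ball (0 : E d) ε, f (q + c • y) :=
        lintegral_const_mul' _ _ ENNReal.ofReal_ne_top
    _ ≤ ENNReal.ofReal (A * (ε⁻¹) ^ d) * (ENNReal.ofReal (c ^ d)⁻¹ *
          ∫⁻ x in Metric.ball q (c * ε), f x) := by gcongr
    _ = _ := by
        rw [← mul_assoc, ← ENNReal.ofReal_mul (by positivity)]
        congr 2
        rw [mul_inv, mul_pow, inv_pow, inv_pow]
        ring

end Pool.Agent.U896.VM
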