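import Pool.Agent.U896.VM.V1

/-!
# Nearly nondegenerate forms: the two scales
-/

set_option autoImplicit false

open Set Filter Topology MeasureTheory
open scoped Manifold ContDiff ENNReal

noncomputable section

namespace Pool.Agent.U896.VM

open Pool.Agent.Y501.SY (E Moll S_SM)
open Pool.Agent.Y515.SY
open Pool.Agent.U896
open Pool.Agent.U896.SE hiding sq aff_null
open Pool.Agent.U896.SW
open Pool.Agent.U896.SV

variable {d : ℕ}

/-- on small balls near `p`, the form is close in the mean to a convex set of forms with a uniform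
lower bound -/
def VMp (s : E d → Al d 2) (p : E d) : Prop :=
  ∃ c R : ℝ, 0 < c ∧ 0 < R ∧ ∀ δ : ℝ, 0 < δ → ∃ r : ℝ, 0 < r ∧ ∀ y ∈ Metric.ball p R, ∀ t : ℝ,
    0 < t → t ≤ r → ∃ C : Set (Al d 2), CN c C ∧
      ∫⁻ x in Metric.ball y t, ENNReal.ofReal (Metric.infDist (s x) C) ≤
        ENNReal.ofReal (δ * t ^ d)

theorem VMp.congr {s s' : E d → Al d 2} {p : E d} {R : ℝ} (hR : 0 < R) (h : VMp s p)
    (hs : ∀ q ∈ Metric.ball p R, s' q = s q) : VMp s' p := by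
  obtain ⟨c, R₁, hc, hR₁, h1⟩ := h
  refine ⟨c, min R₁ (R / 2), hc, lt_min hR₁ (by positivity), fun δ hδ => ?_⟩
  obtain ⟨r, hr, h2⟩ := h1 δ hδ
  refine ⟨min r (R / 2), lt_min hr (by positivity), fun y hy t ht htr => ?_⟩
  obtain ⟨C, hC, h3⟩ := h2 y (Metric.ball_subset_ball (min_le_left _ _) hy) t ht
    (htr.trans (min_le_left _ _))
  refine ⟨C, hC, le_trans (le_of_eq ?_) h3⟩
  have hy2 : dist y p < R / 2 := lt_of_lt_of_le (Metric.mem_ball.1 hy) (min_le_right _ _)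
  have ht2 : t ≤ R / 2 := htr.trans (min_le_right _ _)
  refine setLIntegral_congr_fun Metric.isOpen_ball.measurableSet fun x hx => ?_
  have hx' : x ∈ Metric.ball p R := by
    rw [Metric.mem_ball] at hx ⊢
    have := dist_triangle x y p
    linarith
  simp only [hs x hx']

theorem vm_unif {s : E d → Al d 2} {Q : Set (E d)} (hQ : IsCompact Q) (h : ∀ p ∈ Q, VMp s p) :
    ∃ c : ℝ, 0 < c ∧ ∀ δ : ℝ, 0 < δ → ∃ r : ℝ, 0 < r ∧ ∀ y ∈ Q, ∀ t : ℝ,
    0 < t → t ≤ r → ∃ C : Set (Al d 2), CN c C ∧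
      ∫⁻ x in Metric.ball y t, ENNReal.ofReal (Metric.infDist (s x) C) ≤
        ENNReal.ofReal (δ * t ^ d) := by
  refine hQ.induction_on (p := fun S => ∃ c : ℝ, 0 < c ∧ ∀ δ : ℝ, 0 < δ → ∃ r : ℝ, 0 < r ∧
    ∀ y ∈ S, ∀ t : ℝ, 0 < t → t ≤ r → ∃ C : Set (Al d 2), CN c C ∧
      ∫⁻ x in Metric.ball y t, ENNReal.ofReal (Metric.infDist (s x) C) ≤
        ENNReal.ofReal (δ * t ^ d)) ?_ ?_ ?_ ?_
  · exact ⟨1, one_pos, fun δ hδ => ⟨1, one_pos, fun y hy => absurd hy (notMem_empty y)⟩⟩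
  · rintro S T hST ⟨c, hc, h1⟩
    refine ⟨c, hc, fun δ hδ => ?_⟩
    obtain ⟨r, hr, h2⟩ := h1 δ hδ
    exact ⟨r, hr, fun y hy => h2 y (hST hy)⟩
  · rintro S T ⟨c, hc, h1⟩ ⟨c', hc', h1'⟩
    refine ⟨min c c', lt_min hc hc', fun δ hδ => ?_⟩
    obtain ⟨r, hr, h2⟩ := h1 δ hδ
    obtain ⟨r', hr', h2'⟩ := h1' δ hδ
    refine ⟨min r r', lt_min hr hr', ?_⟩
    rintro y (hy | hy) t ht htr
    · obtain ⟨C, hC, h3⟩ := h2 y hy t ht (htr.trans (min_le_left _ _))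
      exact ⟨C, hC.mono (min_le_left _ _), h3⟩
    · obtain ⟨C, hC, h3⟩ := h2' y hy t ht (htr.trans (min_le_right _ _))
      exact ⟨C, hC.mono (min_le_right _ _), h3⟩
  · intro x hx
    obtain ⟨c, R, hc, hR, h1⟩ := h x hx
    exact ⟨Metric.ball x R, mem_nhdsWithin_of_mem_nhds (Metric.ball_mem_nhds x hR), c, hc, h1⟩

theorem chi_lip {χ : E d → ℝ} {D : ℝ} (hχ : ContDiff ℝ ∞ χ) (hD : ∀ p, ‖fderiv ℝ χ p‖ ≤ D)
    (p q : E d) : |χ p - χ q| ≤ D * ‖p - q‖ :=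
  Convex.norm_image_sub_le_of_norm_fderiv_le (𝕜 := ℝ)
    (fun x _ => hχ.differentiable (by simp) x) (fun x _ => hD x) convex_univ
    (mem_univ q) (mem_univ p)

/-- small balls -/
theorem case1 {ρ χ : E d → ℝ} {ε D A τ δ₂ : ℝ} (hA0 : 0 ≤ A) (hρ : Moll ε ρ)
    (hρA : ∀ y, ρ y ≤ A * (ε⁻¹) ^ d) (hε : 0 < ε) (hχ : ContDiff ℝ ∞ χ)
    (hD : ∀ p, ‖fderiv ℝ χ p‖ ≤ D) (hDε : D * ε ≤ 1 / 2) {s' Φ : E d → Al d 2} {y : E d} {t : ℝ}
    (hy : 0 < χ y) (ht : t ≤ χ y * ε) {C : Set (Al d 2)}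
    (hpt : ∀ q ∈ Metric.ball y t,
      ENNReal.ofReal (Metric.infDist (s' q) (Metric.cthickening τ C)) ≤
        ∫⁻ u, ENNReal.ofReal (ρ u) * ENNReal.ofReal (Metric.infDist (Φ (q + χ q • u)) C))
    (hint : ∫⁻ x in Metric.ball y (3 * (χ y * ε)), ENNReal.ofReal (Metric.infDist (Φ x) C) ≤
      ENNReal.ofReal (δ₂ * (3 * (χ y * ε)) ^ d))
    (hδ₂ : A * 6 ^ d * δ₂ ≤ τ) (hδ0 : 0 ≤ δ₂) (hτ : 0 ≤ τ) (q : E d) (hq : q ∈ Metric.ball y t) :
    Metric.infDist (s' q) (Metric.cthickening τ C) ≤ τ := by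
  have hD0 : 0 ≤ D := (norm_nonneg _).trans (hD 0)
  have h1 := chi_lip hχ hD q y
  have hqd : ‖q - y‖ < t := by
    rw [Metric.mem_ball, dist_eq_norm] at hq
    exact hq
  have h2 : D * ‖q - y‖ ≤ χ y / 2 := by
    calc D * ‖q - y‖ ≤ D * (χ y * ε) := mul_le_mul_of_nonneg_left (by linarith) hD0
      _ = (D * ε) * χ y := by ring
      _ ≤ 1 / 2 * χ y := mul_le_mul_of_nonneg_right hDε hy.le
      _ = χ y / 2 := by ring
  have h3 := (abs_le.1 (h1.trans h2)).1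
  have h4 := (abs_le.1 (h1.trans h2)).2
  have hq0 : 0 < χ q := by linarith
  have hsub : Metric.ball q (χ q * ε) ⊆ Metric.ball y (3 * (χ y * ε)) := by
    intro x hx
    rw [Metric.mem_ball] at hx ⊢
    have h5 := dist_triangle x q y
    rw [← dist_eq_norm] at hqd
    have h6 : χ q * ε ≤ 3 / 2 * χ y * ε := mul_le_mul_of_nonneg_right (by linarith) hε.le
    have h7 : 0 < χ y * ε := by positivity
    nlinarith
  have h5 := av_loc hA0 hρ hρA (fun x => ENNReal.ofReal (Metric.infDist (Φ x) C)) (q := q) hε hq0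
  have h6 : ENNReal.ofReal (Metric.infDist (s' q) (Metric.cthickening τ C)) ≤
      ENNReal.ofReal τ := by
    refine (hpt q hq).trans (h5.trans ?_)
    calc ENNReal.ofReal (A * ((χ q * ε)⁻¹) ^ d) *
          ∫⁻ x in Metric.ball q (χ q * ε), ENNReal.ofReal (Metric.infDist (Φ x) C)
        ≤ ENNReal.ofReal (A * ((χ q * ε)⁻¹) ^ d) *
          ENNReal.ofReal (δ₂ * (3 * (χ y * ε)) ^ d) :=
          mul_le_mul_right ((lintegral_mono_set hsub).trans hint) _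
      _ = ENNReal.ofReal (A * ((χ q * ε)⁻¹) ^ d * (δ₂ * (3 * (χ y * ε)) ^ d)) := by
          rw [← ENNReal.ofReal_mul (by positivity)]
      _ ≤ ENNReal.ofReal τ := by
          refine ENNReal.ofReal_le_ofReal (le_trans ?_ hδ₂)
          have h7 : (χ q * ε)⁻¹ ≤ 2 * (χ y * ε)⁻¹ := by
            have h8 : 2 * (χ y * ε)⁻¹ = (χ y / 2 * ε)⁻¹ := by
              rw [mul_inv, mul_inv, div_eq_mul_inv, mul_inv, inv_inv]
              ring
            rw [h8]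
            apply inv_anti₀ (by positivity)
            exact mul_le_mul_of_nonneg_right (by linarith) hε.le
          have h9 : ((χ q * ε)⁻¹) ^ d ≤ (2 * (χ y * ε)⁻¹) ^ d :=
            pow_le_pow_left₀ (by positivity) h7 d
          calc A * ((χ q * ε)⁻¹) ^ d * (δ₂ * (3 * (χ y * ε)) ^ d)
              ≤ A * (2 * (χ y * ε)⁻¹) ^ d * (δ₂ * (3 * (χ y * ε)) ^ d) := by gcongr
            _ = A * ((2 * (χ y * ε)⁻¹) * (3 * (χ y * ε))) ^ d * δ₂ := by
                rw [mul_pow (2 * (χ y * ε)⁻¹)]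
                ring
            _ = A * 6 ^ d * δ₂ := by
                congr 3
                have h10 : χ y * ε ≠ 0 := by positivity
                field_simp
                norm_num
  exact (ENNReal.ofReal_le_ofReal_iff hτ).1 h6

/-- large balls -/
theorem case2 {ρ χ : E d → ℝ} {ε D θ τ : ℝ} (hρ : Moll ε ρ) (hε : 0 < ε) (hχ : ContDiff ℝ ∞ χ)
    (hχ0 : ∀ p, 0 < χ p ∨ (χ p = 0 ∧ fderiv ℝ χ p = 0))
    (hD : ∀ p, ‖fderiv ℝ χ p‖ ≤ D) (hDε : D * ε ≤ 1 / 2) (hθ : D * ε ≤ θ)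
    (hdet : ∀ A : E d →L[ℝ] E d, ‖A - ContinuousLinearMap.id ℝ (E d)‖ ≤ θ → 1 / 2 ≤ |A.det|)
    {s' Φ : E d → Al d 2} (hΦ : Integrable Φ) {y : E d} {t : ℝ} (ht : χ y * ε < t)
    {C : Set (Al d 2)}
    (hpt : ∀ q ∈ Metric.ball y t,
      ENNReal.ofReal (Metric.infDist (s' q) (Metric.cthickening τ C)) ≤
        ∫⁻ u, ENNReal.ofReal (ρ u) * ENNReal.ofReal (Metric.infDist (Φ (q + χ q • u)) C)) :
    ∫⁻ q in Metric.ball y t, ENNReal.ofReal (Metric.infDist (s' q) (Metric.cthickening τ C)) ≤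
      2 * ∫⁻ x in Metric.ball y (3 * t), ENNReal.ofReal (Metric.infDist (Φ x) C) := by
  have hD0 : 0 ≤ D := (norm_nonneg _).trans (hD 0)
  have hm : AEMeasurable (fun x => ENNReal.ofReal (Metric.infDist (Φ x) C)) volume :=
    ((Metric.continuous_infDist_pt C).comp_aestronglyMeasurable
      hΦ.aestronglyMeasurable).aemeasurable.ennreal_ofReal
  obtain ⟨f, hfm, hf⟩ := hm
  obtain ⟨A, hA⟩ : ∃ A, A = {p | ENNReal.ofReal (Metric.infDist (Φ p) C) ≠ f p} := ⟨_, rfl⟩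
  have hA0 : volume A = 0 := by rw [hA]; exact hf
  have hAf : ∀ p, p ∉ A → ENNReal.ofReal (Metric.infDist (Φ p) C) = f p := by
    intro p hp
    by_contra h
    exact hp (by rw [hA]; exact h)
  have h1 : ∀ᵐ p : E d, p ∈ Metric.ball y t →
      ENNReal.ofReal (Metric.infDist (s' p) (Metric.cthickening τ C)) ≤
      ∫⁻ u, ENNReal.ofReal (ρ u) * f (p + χ p • u) := by
    filter_upwards [measure_eq_zero_iff_ae_notMem.1 hA0] with p hpA hp
    refine (hpt p hp).trans (le_of_eq ?_)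
    refine lintegral_congr_ae ?_
    rcases hχ0 p with hp | ⟨hp, -⟩
    · filter_upwards [Pool.Agent.Y515.SY.aff_null hA0 p hp.ne'] with y hy
      rw [hAf _ hy]
    · refine Eventually.of_forall fun y => ?_
      simp only [hp, zero_smul, add_zero]
      rw [hAf _ hpA]
  have hmap : ∀ p ∈ Metric.ball y t, ∀ u, ‖u‖ ≤ ε → p + χ p • u ∈ Metric.ball y (3 * t) := by
    intro p hp u hu
    rw [Metric.mem_ball, dist_eq_norm] at hp ⊢
    have h2 := (abs_le.1 (chi_lip hχ hD p y)).2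
    have h3 : p + χ p • u - y = (p - y) + χ p • u := by abel
    rw [h3]
    refine (norm_add_le _ _).trans_lt ?_
    have hp0 : 0 ≤ χ p := by
      rcases hχ0 p with h | h
      · exact h.le
      · exact h.1.ge
    rw [norm_smul, Real.norm_of_nonneg hp0]
    have h4 : χ p * ‖u‖ ≤ χ p * ε := mul_le_mul_of_nonneg_left hu hp0
    have h5 : D * ‖p - y‖ * ε ≤ 1 / 2 * ‖p - y‖ := by
      calc D * ‖p - y‖ * ε = (D * ε) * ‖p - y‖ := by ring
        _ ≤ _ := mul_le_mul_of_nonneg_right hDε (norm_nonneg _)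
    have h6 : χ p * ε ≤ (χ y + D * ‖p - y‖) * ε := mul_le_mul_of_nonneg_right (by linarith) hε.le
    have h7 := norm_nonneg (p - y)
    nlinarith
  calc ∫⁻ q in Metric.ball y t, ENNReal.ofReal (Metric.infDist (s' q) (Metric.cthickening τ C))
      ≤ ∫⁻ p in Metric.ball y t, ∫⁻ u, ENNReal.ofReal (ρ u) * f (p + χ p • u) := by
        refine lintegral_mono_ae ?_
        rw [ae_restrict_iff' Metric.isOpen_ball.measurableSet]
        exact h1
    _ ≤ 2 * ∫⁻ p in Metric.ball y (3 * t), f p :=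
        av_lint hρ hχ hD (by linarith) hθ hdet Metric.isOpen_ball hmap hfm
    _ = _ := by
        congr 1
        exact (lintegral_congr_ae (ae_restrict_of_ae hf)).symm

end Pool.Agent.U896.VM
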