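import Pool.Agent.U896.VM.V3

/-!
# Nearly nondegenerate forms: change of charts
-/

set_option autoImplicit false

open Set Filter Topology MeasureTheory
open scoped Manifold ContDiff ENNReal

noncomputable section

namespace Pool.Agent.U896.VM

open Pool.Agent.Y501.SY
open Pool.Agent.Y515.SY (comp_norm comp_pair lR lR_apply)
open Pool.Agent.U896.SW
open Pool.Agent.U896.SV

section loc

variable {d : ℕ}

theorem NDg.comp {c M' : ℝ} (hc : 0 ≤ c) (hM' : 0 < M') {η : (E d) [⋀^Fin 2]→L[ℝ] ℝ}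
    {A : E d →L[ℝ] E d} (hA : ∀ v, ‖v‖ ≤ M' * ‖A v‖) (h : NDg c η) :
    NDg (c / M' ^ 2) (η.compContinuousLinearMap A) := by
  intro v
  obtain ⟨w, hw, h1⟩ := h (A v)
  have hinj : Function.Injective (A : E d →ₗ[ℝ] E d) := by
    rw [← LinearMap.ker_eq_bot, LinearMap.ker_eq_bot']
    intro u hu
    have h2 := hA u
    have h3 : A u = 0 := hu
    rw [h3, norm_zero, mul_zero] at h2
    exact norm_le_zero_iff.1 h2
  obtain ⟨w₀, hw₀⟩ := (LinearMap.injective_iff_surjective.1 hinj) w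
  have hw₀' : A w₀ = w := hw₀
  have h2 : ‖w₀‖ ≤ M' := by
    have h3 := hA w₀
    rw [hw₀'] at h3
    nlinarith
  refine ⟨M'⁻¹ • w₀, ?_, ?_⟩
  · rw [norm_smul, Real.norm_of_nonneg (by positivity), inv_mul_eq_div, div_le_one hM']
    exact h2
  · rw [comp_pair, map_smul, hw₀', ← lR_apply, map_smul, lR_apply, smul_eq_mul]
    have h3 := hA v
    calc c / M' ^ 2 * ‖v‖ ≤ c / M' ^ 2 * (M' * ‖A v‖) := by gcongr
      _ = M'⁻¹ * (c * ‖A v‖) := by field_simp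
      _ ≤ M'⁻¹ * η ![A v, w] := by gcongr

theorem CN.comp {c M' : ℝ} (hc : 0 ≤ c) (hM' : 0 < M') {C : Set ((E d) [⋀^Fin 2]→L[ℝ] ℝ)}
    {A : E d →L[ℝ] E d} (hA : ∀ v, ‖v‖ ≤ M' * ‖A v‖) (h : CN c C) :
    CN (c / M' ^ 2) ((fun η => η.compContinuousLinearMap A) '' C) := by
  refine ⟨?_, h.ne.image _, ?_⟩
  · rintro _ ⟨η, hη, rfl⟩ _ ⟨ζ, hζ, rfl⟩ a b ha hb hab
    exact ⟨a • η + b • ζ, h.conv hη hζ ha hb hab, rfl⟩
  · rintro _ ⟨η, hη, rfl⟩
    exact (h.nd η hη).comp hc hM' hA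

theorem infDist_comp {M κ : ℝ} (hM : 0 < M) {C : Set ((E d) [⋀^Fin 2]→L[ℝ] ℝ)}
    (hC : C.Nonempty)
    {A T : E d →L[ℝ] E d} (hA : ‖A‖ ≤ M) (hT : ‖T‖ ≤ M) (hAT : ‖T - A‖ ≤ κ)
    (ζ : (E d) [⋀^Fin 2]→L[ℝ] ℝ) :
    Metric.infDist (ζ.compContinuousLinearMap T) ((fun η => η.compContinuousLinearMap A) '' C) ≤
      2 * M * κ * ‖ζ‖ + M ^ 2 * Metric.infDist ζ C := by
  have h1 : (Metric.infDist (ζ.compContinuousLinearMap T)
      ((fun η => η.compContinuousLinearMap A) '' C) - 2 * M * κ * ‖ζ‖) / M ^ 2 ≤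
      Metric.infDist ζ C := by
    rw [Metric.le_infDist hC]
    intro η hη
    rw [div_le_iff₀ (by positivity), sub_le_iff_le_add]
    refine (Metric.infDist_le_dist_of_mem (mem_image_of_mem _ hη)).trans ?_
    rw [dist_eq_norm, dist_eq_norm]
    have h2 : ζ.compContinuousLinearMap T - η.compContinuousLinearMap A =
        (ζ.compContinuousLinearMap T - ζ.compContinuousLinearMap A) +
        (ζ - η).compContinuousLinearMap A := by
      have h3 : (ζ - η).compContinuousLinearMap A = ζ.compContinuousLinearMap A -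
        η.compContinuousLinearMap A := rfl
      rw [h3]
      abel
    have h4 := comp_sub_norm ζ T A
    have h5 := comp_norm (ζ - η) A
    have hκ : 0 ≤ κ := (norm_nonneg _).trans hAT
    calc _ = ‖(ζ.compContinuousLinearMap T - ζ.compContinuousLinearMap A) +
          (ζ - η).compContinuousLinearMap A‖ := by rw [h2]
      _ ≤ ‖ζ‖ * ((‖T‖ + ‖A‖) * ‖T - A‖) + ‖ζ - η‖ * ‖A‖ ^ 2 :=
          (norm_add_le _ _).trans (add_le_add h4 h5)
      _ ≤ ‖ζ‖ * ((M + M) * κ) + ‖ζ - η‖ * M ^ 2 := by gcongr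
      _ = _ := by ring
  rw [div_le_iff₀ (by positivity)] at h1
  linarith

end loc

section

variable {d : ℕ} {X : Type} [TopologicalSpace X] [ChartedSpace (E d) X] [IsManifold (𝓡 d) ∞ X]

/-- the change of charts near a point -/
theorem cc2 {z₁ z₂ : X} {p₁ p₂ : E d}
    (hp₁ : p₁ ∈ (chartAt (E d) z₁).target) (hp₂ : p₂ ∈ (chartAt (E d) z₂).target)
    (hp : (chartAt (E d) z₁).symm p₁ = (chartAt (E d) z₂).symm p₂) {r : ℝ} (hr : 0 < r) :
    ∃ (ψ : E d → E d) (r' M μ M' Λ : ℝ), 0 < r' ∧ 0 < M ∧ 0 < μ ∧ 0 < M' ∧ 0 ≤ Λ ∧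
      ContDiffOn ℝ ∞ ψ (Metric.ball p₂ r') ∧
      MapsTo ψ (Metric.ball p₂ r') (Metric.ball p₁ r) ∧ InjOn ψ (Metric.ball p₂ r') ∧
      (∀ q ∈ Metric.ball p₂ r', ‖fderiv ℝ ψ q‖ ≤ M) ∧
      (∀ q ∈ Metric.ball p₂ r', μ ≤ |(fderiv ℝ ψ q).det|) ∧
      (∀ q ∈ Metric.ball p₂ r', ∀ v, ‖v‖ ≤ M' * ‖fderiv ℝ ψ q v‖) ∧
      (∀ q ∈ Metric.ball p₂ r', ∀ q' ∈ Metric.ball p₂ r',
        ‖fderiv ℝ ψ q - fderiv ℝ ψ q'‖ ≤ Λ * ‖q - q'‖) ∧
      ∀ w : Form d X 2, ∀ q ∈ Metric.ball p₂ r', pb (chartAt (E d) z₂).symm w q =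
        (pb (chartAt (E d) z₁).symm w (ψ q)).compContinuousLinearMap (fderiv ℝ ψ q) := by
  obtain ⟨e₁, he₁⟩ : ∃ e₁, e₁ = chartAt (E d) z₁ := ⟨_, rfl⟩
  obtain ⟨e₂, he₂⟩ : ∃ e₂, e₂ = chartAt (E d) z₂ := ⟨_, rfl⟩
  have hs₁ : ContMDiffOn (𝓡 d) (𝓡 d) ∞ e₁ e₁.source := by rw [he₁]; exact contMDiffOn_chart
  have hs₂ : ContMDiffOn (𝓡 d) (𝓡 d) ∞ e₂ e₂.source := by rw [he₂]; exact contMDiffOn_chart
  have ht₁ : ContMDiffOn (𝓡 d) (𝓡 d) ∞ e₁.symm e₁.target := by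
    rw [he₁]; exact contMDiffOn_chart_symm
  have ht₂ : ContMDiffOn (𝓡 d) (𝓡 d) ∞ e₂.symm e₂.target := by
    rw [he₂]; exact contMDiffOn_chart_symm
  rw [← he₁] at hp₁ hp
  rw [← he₂] at hp₂ hp
  rw [← he₁, ← he₂]
  obtain ⟨Ω, hΩ⟩ : ∃ Ω, Ω = e₂.target ∩ e₂.symm ⁻¹' e₁.source := ⟨_, rfl⟩
  have hΩo : IsOpen Ω := by rw [hΩ]; exact e₂.isOpen_inter_preimage_symm e₁.open_source
  obtain ⟨ψ, hψ⟩ : ∃ ψ : E d → E d, ψ = fun q => e₁ (e₂.symm q) := ⟨_, rfl⟩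
  have hψs : ContDiffOn ℝ ∞ ψ Ω := by
    rw [← contMDiffOn_iff_contDiffOn, hψ, hΩ]
    exact hs₁.comp (ht₂.mono inter_subset_left) fun q hq => hq.2
  have hpΩ : p₂ ∈ Ω := by
    rw [hΩ]
    refine ⟨hp₂, ?_⟩
    rw [mem_preimage, ← hp]
    exact e₁.map_target hp₁
  have hψp : ψ p₂ = p₁ := by
    rw [hψ]
    change e₁ (e₂.symm p₂) = p₁
    rw [← hp, e₁.right_inv hp₁]
  have hinj : InjOn ψ Ω := by
    intro a ha b hb hab
    rw [hΩ] at ha hb
    rw [hψ] at hab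
    exact e₂.symm.injOn ha.1 hb.1 (e₁.injOn ha.2 hb.2 hab)
  have hψt : ∀ q ∈ Ω, ψ q ∈ e₁.target := by
    intro q hq
    rw [hΩ] at hq
    rw [hψ]
    exact e₁.map_source hq.2
  obtain ⟨B₀, hB₀⟩ : ∃ B₀ : E d →L[ℝ] E d,
      B₀.comp (fderiv ℝ ψ p₂) = ContinuousLinearMap.id ℝ (E d) := by
    obtain ⟨φ, hφ⟩ : ∃ φ : E d → E d, φ = fun q => e₂ (e₁.symm q) := ⟨_, rfl⟩
    have hφs : ContDiffAt ℝ ∞ φ (ψ p₂) := by
      have h1 : ContDiffOn ℝ ∞ φ (e₁.target ∩ e₁.symm ⁻¹' e₂.source) := by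
        rw [← contMDiffOn_iff_contDiffOn, hφ]
        exact hs₂.comp (ht₁.mono inter_subset_left) fun q hq => hq.2
      refine h1.contDiffAt ((e₁.isOpen_inter_preimage_symm e₂.open_source).mem_nhds ?_)
      rw [hψp]
      refine ⟨hp₁, ?_⟩
      rw [mem_preimage, hp]
      exact e₂.map_target hp₂
    have h2 : HasFDerivAt (φ ∘ ψ) ((fderiv ℝ φ (ψ p₂)).comp (fderiv ℝ ψ p₂)) p₂ :=
      (hφs.differentiableAt (by simp)).hasFDerivAt.comp p₂
        ((hψs.contDiffAt (hΩo.mem_nhds hpΩ)).differentiableAt (by simp)).hasFDerivAt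
    have h3 : (φ ∘ ψ) =ᶠ[𝓝 p₂] fun q => q := by
      filter_upwards [hΩo.mem_nhds hpΩ] with q hq
      rw [hΩ] at hq
      rw [hφ, hψ]
      change e₂ (e₁.symm (e₁ (e₂.symm q))) = q
      rw [e₁.left_inv hq.2, e₂.right_inv hq.1]
    exact ⟨_, (h2.congr_of_eventuallyEq h3.symm).unique (hasFDerivAt_id p₂)⟩
  have hdet : (fderiv ℝ ψ p₂).det ≠ 0 := by
    intro h0
    have h5 : (B₀.comp (fderiv ℝ ψ p₂)).det =
        B₀.det * (fderiv ℝ ψ p₂).det := LinearMap.det_comp _ _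
    rw [hB₀, h0, mul_zero] at h5
    have h6 : (ContinuousLinearMap.id ℝ (E d)).det = 1 := LinearMap.det_id
    rw [h6] at h5
    exact one_ne_zero h5
  have hDc : ContinuousAt (fderiv ℝ ψ) p₂ :=
    (hψs.continuousOn_fderiv_of_isOpen hΩo (by simp)).continuousAt (hΩo.mem_nhds hpΩ)
  have hDs : ContDiffAt ℝ 1 (fderiv ℝ ψ) p₂ := by
    have h1 : ContDiffOn ℝ ∞ (fderiv ℝ ψ) Ω := hψs.fderiv_of_isOpen hΩo (by simp)
    exact (h1.contDiffAt (hΩo.mem_nhds hpΩ)).of_le (by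
      exact_mod_cast le_top)
  obtain ⟨Λ, tL, htL, hLip⟩ := hDs.exists_lipschitzOnWith
  obtain ⟨μ, hμ⟩ : ∃ μ : ℝ, μ = |(fderiv ℝ ψ p₂).det| / 2 := ⟨_, rfl⟩
  have hμ0 : 0 < μ := by rw [hμ]; have := abs_pos.2 hdet; positivity
  obtain ⟨M, hM⟩ : ∃ M : ℝ, M = ‖fderiv ℝ ψ p₂‖ + 1 := ⟨_, rfl⟩
  have hM0 : 0 < M := by rw [hM]; positivity
  obtain ⟨b, hb⟩ : ∃ b : ℝ, b = ‖B₀‖ + 1 := ⟨_, rfl⟩
  have hb0 : 0 < b := by rw [hb]; positivity
  have hev : ∀ᶠ q in 𝓝 p₂, ((q ∈ Ω ∧ ψ q ∈ Metric.ball p₁ r) ∧ ‖fderiv ℝ ψ q‖ < M ∧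
      μ < |(fderiv ℝ ψ q).det|) ∧ q ∈ tL ∧ ‖fderiv ℝ ψ q - fderiv ℝ ψ p₂‖ < 1 / (2 * b) := by
    refine ((Filter.Eventually.and (hΩo.mem_nhds hpΩ) ?_).and
      (Filter.Eventually.and ?_ ?_)).and (Filter.Eventually.and htL ?_)
    · have h1 : ContinuousAt ψ p₂ := (hψs.contDiffAt (hΩo.mem_nhds hpΩ)).continuousAt
      refine h1.eventually ?_
      rw [hψp]
      exact Metric.ball_mem_nhds p₁ hr
    · refine hDc.norm.eventually_lt_const ?_
      rw [hM]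
      exact lt_add_one _
    · have h1 : ContinuousAt (fun q => |(fderiv ℝ ψ q).det|) p₂ :=
        (ContinuousLinearMap.continuous_det.continuousAt.comp hDc).abs
      refine h1.eventually_const_lt ?_
      rw [hμ]
      have := abs_pos.2 hdet
      linarith
    · have h1 : ContinuousAt (fun q => ‖fderiv ℝ ψ q - fderiv ℝ ψ p₂‖) p₂ :=
        (hDc.sub continuousAt_const).norm
      refine h1.eventually_lt_const ?_
      simp only [sub_self, norm_zero]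
      positivity
  obtain ⟨r', hr', hbb⟩ := Metric.eventually_nhds_iff_ball.1 hev
  refine ⟨ψ, r', M, μ, 2 * b, Λ, hr', hM0, hμ0, by positivity, Λ.2,
    hψs.mono fun q hq => (hbb q hq).1.1.1,
    fun q hq => (hbb q hq).1.1.2, hinj.mono fun q hq => (hbb q hq).1.1.1,
    fun q hq => (hbb q hq).1.2.1.le, fun q hq => (hbb q hq).1.2.2.le, fun q hq v => ?_,
    fun q hq q' hq' => ?_, fun w q hq => ?_⟩
  · have h1 := (hbb q hq).2.2
    have h2 : B₀ (fderiv ℝ ψ p₂ v) = v := by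
      have h3 := congrArg (fun T : E d →L[ℝ] E d => T v) hB₀
      exact h3
    have h3 : ‖v‖ ≤ ‖B₀‖ * ‖fderiv ℝ ψ p₂ v‖ := by
      calc ‖v‖ = ‖B₀ (fderiv ℝ ψ p₂ v)‖ := by rw [h2]
        _ ≤ _ := B₀.le_opNorm _
    have h4 : ‖fderiv ℝ ψ p₂ v‖ ≤ ‖fderiv ℝ ψ q v‖ + 1 / (2 * b) * ‖v‖ := by
      have h5 : fderiv ℝ ψ p₂ v = fderiv ℝ ψ q v - (fderiv ℝ ψ q - fderiv ℝ ψ p₂) v := by
        rw [ContinuousLinearMap.sub_apply]
        abel
      rw [h5]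
      refine (norm_sub_le _ _).trans ?_
      have h6 := (fderiv ℝ ψ q - fderiv ℝ ψ p₂).le_opNorm v
      have h7 : ‖fderiv ℝ ψ q - fderiv ℝ ψ p₂‖ * ‖v‖ ≤ 1 / (2 * b) * ‖v‖ :=
        mul_le_mul_of_nonneg_right h1.le (norm_nonneg _)
      linarith
    have h5 : ‖v‖ ≤ b * (‖fderiv ℝ ψ q v‖ + 1 / (2 * b) * ‖v‖) := by
      refine h3.trans ?_
      exact mul_le_mul (by rw [hb]; linarith) h4 (norm_nonneg _) hb0.le
    have h6 : b * (1 / (2 * b) * ‖v‖) = ‖v‖ / 2 := by field_simp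
    rw [mul_add, h6] at h5
    linarith
  · have h1 := hLip.norm_sub_le (hbb q hq).2.1 (hbb q' hq').2.1
    exact h1
  have hq' := (hbb q hq).1.1.1
  have h2 : e₂.symm =ᶠ[𝓝 q] (e₁.symm ∘ ψ) := by
    filter_upwards [hΩo.mem_nhds hq'] with y hy
    rw [hΩ] at hy
    rw [hψ]
    exact (e₁.left_inv hy.2).symm
  rw [pb_ev w h2]
  refine pb_comp w ?_ ((hψs.contDiffAt (hΩo.mem_nhds hq')).differentiableAt (by simp))
  exact (ht₁.contMDiffAt (e₁.open_target.mem_nhds (hψt q hq'))).mdifferentiableAt (by simp)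

theorem VMp.trans {a : ℝ} (ha1 : a < 1) (had : a ≤ d) {w : Form d X 2} {z₁ z₂ : X}
    {p₁ p₂ : E d}
    (hp₁ : p₁ ∈ (chartAt (E d) z₁).target) (hp₂ : p₂ ∈ (chartAt (E d) z₂).target)
    (hp : (chartAt (E d) z₁).symm p₁ = (chartAt (E d) z₂).symm p₂)
    (hL : LCn (pb (chartAt (E d) z₁).symm w) p₁)
    (hM : Mor a (pb (chartAt (E d) z₁).symm w) p₁)
    (h : VMp (pb (chartAt (E d) z₁).symm w) p₁) : VMp (pb (chartAt (E d) z₂).symm w) p₂ := by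
  obtain ⟨c, R₁, hc, hR₁, h1⟩ := h
  obtain ⟨rM, CM, hrM, hCM, h2⟩ := hM
  obtain ⟨rL, hrL, hLL⟩ := hL
  obtain ⟨r, hrd⟩ : ∃ r, r = min R₁ (min rM (rL / 2)) := ⟨_, rfl⟩
  have hr : 0 < r := by
    rw [hrd]
    exact lt_min hR₁ (lt_min hrM (by positivity))
  have hr1 : r ≤ R₁ := by rw [hrd]; exact min_le_left _ _
  have hr2 : r ≤ rM := by rw [hrd]; exact (min_le_right _ _).trans (min_le_left _ _)
  have hr3 : r ≤ rL / 2 := by rw [hrd]; exact (min_le_right _ _).trans (min_le_right _ _)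
  obtain ⟨ψ, r', M, μ, M', Λ, hr', hM0, hμ, hM'0, hΛ, hψ, hψm, hinj, hψM, hψμ, hψi, hψL, hpb⟩ :=
    cc2 hp₁ hp₂ hp hr
  refine ⟨c / M' ^ 2, r' / 2, by positivity, by positivity, fun δ hδ => ?_⟩
  obtain ⟨δ₁, hδ₁⟩ : ∃ δ₁ : ℝ, δ₁ = δ / (2 * (M ^ 2 * μ⁻¹ * M ^ d)) := ⟨_, rfl⟩
  have hδ₁0 : 0 < δ₁ := by rw [hδ₁]; positivity
  obtain ⟨r₁, hr₁, h3⟩ := h1 δ₁ hδ₁0
  obtain ⟨k, hk⟩ : ∃ k : ℝ, k = 2 * M * Λ * μ⁻¹ * CM * M ^ ((d : ℝ) - a) := ⟨_, rfl⟩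
  have hk0 : 0 ≤ k := by rw [hk]; positivity
  obtain ⟨r₅, hr₅, hk5⟩ : ∃ r₅ : ℝ, 0 < r₅ ∧ k * r₅ ^ (1 - a) < δ / 2 := by
    have h4 : ContinuousAt (fun t : ℝ => k * t ^ (1 - a)) 0 :=
      (Real.continuousAt_rpow_const (0 : ℝ) (1 - a) (Or.inr (by linarith))).const_mul k
    have h5 : ∀ᶠ t in 𝓝 (0 : ℝ), k * t ^ (1 - a) < δ / 2 := by
      refine h4.eventually_lt_const ?_
      have e2 : (0 : ℝ) ^ (1 - a) = 0 := Real.zero_rpow (by linarith)
      simp only [e2, mul_zero]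
      positivity
    have h6 : ∀ᶠ t in 𝓝[>] (0 : ℝ), 0 < t ∧ k * t ^ (1 - a) < δ / 2 :=
      Filter.Eventually.and self_mem_nhdsWithin (h5.filter_mono nhdsWithin_le_nhds)
    exact h6.exists
  refine ⟨min (min (r' / 2) r₅) (min (r₁ / M) (r / M)),
    lt_min (lt_min (by positivity) hr₅) (lt_min (by positivity) (by positivity)),
    fun y hy t ht htr => ?_⟩
  have hq2 : dist y p₂ < r' / 2 := Metric.mem_ball.1 hy
  have ht2 : t ≤ r' / 2 := htr.trans ((min_le_left _ _).trans (min_le_left _ _))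
  have ht5 : t ≤ r₅ := htr.trans ((min_le_left _ _).trans (min_le_right _ _))
  have ht3 : t ≤ r₁ / M := htr.trans ((min_le_right _ _).trans (min_le_left _ _))
  have ht4 : t ≤ r / M := htr.trans ((min_le_right _ _).trans (min_le_right _ _))
  have hMt1 : M * t ≤ r₁ := by
    rw [le_div_iff₀ hM0] at ht3
    linarith
  have hMt2 : M * t ≤ r := by
    rw [le_div_iff₀ hM0] at ht4
    linarith
  have hsub : Metric.ball y t ⊆ Metric.ball p₂ r' := by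
    intro x hx
    rw [Metric.mem_ball] at hx ⊢
    have := dist_triangle x y p₂
    linarith
  have hyb : y ∈ Metric.ball p₂ r' := hsub (Metric.mem_ball_self ht)
  have hψy : ψ y ∈ Metric.ball p₁ r := hψm hyb
  have hψd : ∀ x ∈ Metric.ball y t, HasFDerivAt ψ (fderiv ℝ ψ x) x := fun x hx =>
    ((hψ.contDiffAt (Metric.isOpen_ball.mem_nhds (hsub hx))).differentiableAt
      (by simp)).hasFDerivAt
  have hmap : MapsTo ψ (Metric.ball y t) (Metric.ball (ψ y) (M * t)) := by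
    intro x hx
    have h2 : ‖ψ x - ψ y‖ ≤ M * ‖x - y‖ :=
      Convex.norm_image_sub_le_of_norm_fderiv_le (𝕜 := ℝ)
        (fun y hy => (hψd y hy).differentiableAt) (fun y hy => hψM y (hsub hy))
        (convex_ball y t) (Metric.mem_ball_self ht) hx
    rw [Metric.mem_ball, dist_eq_norm] at hx ⊢
    exact h2.trans_lt (mul_lt_mul_of_pos_left hx hM0)
  obtain ⟨C, hC, h4⟩ := h3 (ψ y) (Metric.ball_subset_ball hr1 hψy) (M * t) (by positivity) hMt1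
  refine ⟨(fun η => η.compContinuousLinearMap (fderiv ℝ ψ y)) '' C,
    hC.comp hc.le hM'0 (hψi y hyb), ?_⟩
  obtain ⟨σ, hσ⟩ : ∃ σ, σ = pb (chartAt (E d) z₁).symm w := ⟨_, rfl⟩
  have hpbw := hpb w
  rw [← hσ] at h4 h2 hLL hpbw
  have h5 := lint_pull (O := Metric.ball (ψ y) (M * t)) (O' := Metric.ball y t) (ψ := ψ)
    Metric.isOpen_ball hψd hmap (hinj.mono hsub) hμ (fun x hx => hψμ x (hsub hx))
    (fun x => ENNReal.ofReal (2 * M * (Λ * t)) * ‖σ x‖ₑ +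
      ENNReal.ofReal (M ^ 2) * ENNReal.ofReal (Metric.infDist (σ x) C))
  have hsubL : Metric.ball (ψ y) (M * t) ⊆ Metric.ball p₁ rL := by
    intro x hx
    rw [Metric.mem_ball] at hx hψy ⊢
    have := dist_triangle x (ψ y) p₁
    linarith
  have hmeas : AEMeasurable (fun x => ENNReal.ofReal (2 * M * (Λ * t)) * ‖σ x‖ₑ)
      (volume.restrict (Metric.ball (ψ y) (M * t))) :=
    ((hLL.meas.mono_measure (Measure.restrict_mono hsubL le_rfl)).enorm).const_mul _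
  have h6 := h2 (ψ y) (Metric.ball_subset_ball hr2 hψy) (M * t) (by positivity)
    (hMt2.trans hr2)
  calc ∫⁻ x in Metric.ball y t, ENNReal.ofReal (Metric.infDist
        (pb (chartAt (E d) z₂).symm w x) ((fun η => η.compContinuousLinearMap (fderiv ℝ ψ y)) '' C))
      ≤ ∫⁻ x in Metric.ball y t, (ENNReal.ofReal (2 * M * (Λ * t)) * ‖σ (ψ x)‖ₑ +
          ENNReal.ofReal (M ^ 2) * ENNReal.ofReal (Metric.infDist (σ (ψ x)) C)) := by
        refine setLIntegral_mono' Metric.isOpen_ball.measurableSet fun x hx => ?_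
        rw [hpbw x (hsub hx), ← ofReal_norm, ← ENNReal.ofReal_mul (by positivity),
          ← ENNReal.ofReal_mul (by positivity), ← ENNReal.ofReal_add (by positivity)
            (mul_nonneg (by positivity) Metric.infDist_nonneg)]
        refine ENNReal.ofReal_le_ofReal ?_
        refine infDist_comp hM0 hC.ne (hψM y hyb) (hψM x (hsub hx)) ?_ _
        refine (hψL x (hsub hx) y hyb).trans (mul_le_mul_of_nonneg_left ?_ hΛ)
        rw [Metric.mem_ball, dist_eq_norm] at hx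
        exact hx.le
    _ ≤ _ := h5
    _ = ENNReal.ofReal μ⁻¹ * (ENNReal.ofReal (2 * M * (Λ * t)) *
          (∫⁻ x in Metric.ball (ψ y) (M * t), ‖σ x‖ₑ) + ENNReal.ofReal (M ^ 2) *
          ∫⁻ x in Metric.ball (ψ y) (M * t), ENNReal.ofReal (Metric.infDist (σ x) C)) := by
        rw [lintegral_add_left' hmeas, lintegral_const_mul' _ _ ENNReal.ofReal_ne_top,
          lintegral_const_mul' _ _ ENNReal.ofReal_ne_top]
    _ ≤ ENNReal.ofReal μ⁻¹ * (ENNReal.ofReal (2 * M * (Λ * t)) *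
          ENNReal.ofReal (CM * (M * t) ^ ((d : ℝ) - a)) + ENNReal.ofReal (M ^ 2) *
          ENNReal.ofReal (δ₁ * (M * t) ^ d)) := by gcongr
    _ = ENNReal.ofReal (μ⁻¹ * (2 * M * (Λ * t) * (CM * (M * t) ^ ((d : ℝ) - a)) +
          M ^ 2 * (δ₁ * (M * t) ^ d))) := by
        rw [← ENNReal.ofReal_mul (by positivity), ← ENNReal.ofReal_mul (by positivity),
          ← ENNReal.ofReal_add (by positivity) (by positivity),
          ← ENNReal.ofReal_mul (by positivity)]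
    _ ≤ ENNReal.ofReal (δ * t ^ d) := by
        refine ENNReal.ofReal_le_ofReal ?_
        have e1 : μ⁻¹ * (2 * M * (Λ * t) * (CM * (M * t) ^ ((d : ℝ) - a))) =
            k * t ^ (1 - a) * t ^ d := by
          have e2 : t * t ^ ((d : ℝ) - a) = t ^ (1 - a) * t ^ d := by
            rw [← Real.rpow_natCast t d, ← Real.rpow_add ht]
            nth_rewrite 1 [← Real.rpow_one t]
            rw [← Real.rpow_add ht]
            congr 1
            ring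
          rw [hk, Real.mul_rpow hM0.le ht.le]
          calc μ⁻¹ * (2 * M * (Λ * t) * (CM * (M ^ ((d : ℝ) - a) * t ^ ((d : ℝ) - a))))
              = 2 * M * Λ * μ⁻¹ * CM * M ^ ((d : ℝ) - a) * (t * t ^ ((d : ℝ) - a)) := by ring
            _ = _ := by rw [e2]; ring
        have e3 : μ⁻¹ * (M ^ 2 * (δ₁ * (M * t) ^ d)) = δ / 2 * t ^ d := by
          rw [hδ₁, mul_pow]
          field_simp
        have e4 : k * t ^ (1 - a) ≤ δ / 2 := by
          refine le_trans ?_ hk5.le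
          exact mul_le_mul_of_nonneg_left (Real.rpow_le_rpow ht.le ht5 (by linarith)) hk0
        rw [mul_add, e1, e3]
        have e5 : 0 ≤ t ^ d := by positivity
        nlinarith

end

end Pool.Agent.U896.VM
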