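import Pool.Agent.U896.VM.V4
import Pool.Agent.U896.SV.StepL

/-!
# Nearly nondegenerate forms: one step of the regularization on a manifold
-/

set_option autoImplicit false

open Set Filter Topology MeasureTheory
open scoped Manifold ContDiff ENNReal

noncomputable section

namespace Pool.Agent.U896.VM

open Pool.Agent.Y501.SY
open Pool.Agent.U896.SW
open Pool.Agent.U896.SV

section

variable {d : ℕ} {X : Type} [TopologicalSpace X] [ChartedSpace (E d) X]

/-- nearly nondegenerate forms of Morrey growth -/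
structure UV (a : ℝ) (σ : Form d X 2) (K : Set X) : Prop where
  smooth : SmoothOff σ K
  closed : IsDOff σ 0 K
  lc : ∀ z : X, ∀ p ∈ (chartAt (E d) z).target, LCn (pb (chartAt (E d) z).symm σ) p
  mor : ∀ z : X, ∀ p ∈ (chartAt (E d) z).target, Mor a (pb (chartAt (E d) z).symm σ) p
  vm : ∀ z : X, ∀ p ∈ (chartAt (E d) z).target, VMp (pb (chartAt (E d) z).symm σ) p

theorem stepV {a : ℝ} (ha : 0 ≤ a) (ha1 : a < 1) (had : a ≤ d)
    (hSm : S_SM) (hPa : S_PATCH2)
    [IsManifold (𝓡 d) ∞ X] [T2Space X] {A' : Set X} (hA : IsOpen A') {z : X} (hz : z ∈ A') :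
    ∃ W : Set X, IsOpen W ∧ z ∈ W ∧ ∀ (K : Set X) (w : Form d X 2), IsClosed K →
    UV a w K → ∃ w' : Form d X 2, UV a w' (K \ W) ∧ ∀ x, x ∉ A' → w' x = w x := by
  -- the ball
  obtain ⟨r, hr, hball⟩ : ∃ r : ℝ, 0 < r ∧
      ∀ p ∈ Metric.closedBall (chartAt (E d) z z) r,
      p ∈ (chartAt (E d) z).target ∧ (chartAt (E d) z).symm p ∈ A' := by
    have h1 : ContinuousAt (chartAt (E d) z).symm (chartAt (E d) z z) :=
      (chartAt (E d) z).continuousAt_symm (mem_chart_target (E d) z)
    have h2 : (chartAt (E d) z).symm (chartAt (E d) z z) = z :=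
      (chartAt (E d) z).left_inv (mem_chart_source (E d) z)
    have h3 : ∀ᶠ x in 𝓝 ((chartAt (E d) z).symm (chartAt (E d) z z)), x ∈ A' := by
      rw [h2]
      exact hA.mem_nhds hz
    have h4 := h1.eventually h3
    have h5 : ∀ᶠ p in 𝓝 (chartAt (E d) z z), p ∈ (chartAt (E d) z).target :=
      (chartAt (E d) z).open_target.mem_nhds (mem_chart_target (E d) z)
    obtain ⟨r, hr, h6⟩ := Metric.nhds_basis_closedBall.mem_iff.1 (h5.and h4)
    exact ⟨r, hr, fun p hp => ⟨(h6 hp).1, (h6 hp).2⟩⟩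
  obtain ⟨p₀, hp₀⟩ : ∃ p₀, p₀ = chartAt (E d) z z := ⟨_, rfl⟩
  rw [← hp₀] at hball
  obtain ⟨e, he⟩ : ∃ e, e = chartAt (E d) z := ⟨_, rfl⟩
  have hzs : z ∈ e.source := by rw [he]; exact mem_chart_source (E d) z
  have hez : e z = p₀ := by rw [he, hp₀]
  have hVt : Metric.closedBall p₀ r ⊆ e.target := fun p hp => by
    rw [he]; exact (hball p hp).1
  have hV : Metric.ball p₀ r ⊆ e.target := Metric.ball_subset_closedBall.trans hVt
  have hN : IsCompact (Metric.closedBall p₀ r) := isCompact_closedBall p₀ r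
  have hW : IsOpen (e.source ∩ e ⁻¹' Metric.ball p₀ (r / 2)) :=
    e.isOpen_inter_preimage Metric.isOpen_ball
  have hO : IsOpen (e.source ∩ e ⁻¹' Metric.ball p₀ r) :=
    e.isOpen_inter_preimage Metric.isOpen_ball
  obtain ⟨W, hWd⟩ : ∃ W, W = e.source ∩ e ⁻¹' Metric.ball p₀ (r / 2) := ⟨_, rfl⟩
  obtain ⟨O, hOd⟩ : ∃ O, O = e.source ∩ e ⁻¹' Metric.ball p₀ r := ⟨_, rfl⟩
  rw [← hWd] at hW
  rw [← hOd] at hO
  have heO : e '' O = Metric.ball p₀ r := by
    apply Subset.antisymm
    · rintro _ ⟨x, hx, rfl⟩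
      rw [hOd] at hx
      exact hx.2
    · intro p hp
      refine ⟨e.symm p, ?_, e.right_inv (hV hp)⟩
      rw [hOd]
      refine ⟨e.map_target (hV hp), ?_⟩
      rw [mem_preimage, e.right_inv (hV hp)]
      exact hp
  have hOs : O ⊆ e.source := by rw [hOd]; exact inter_subset_left
  have hWO : W ⊆ O := by
    rw [hWd, hOd]
    exact inter_subset_inter_right _ (preimage_mono (Metric.ball_subset_ball (by linarith)))
  have hOA : O ⊆ A' := by
    intro x hx
    have h1 : e x ∈ Metric.ball p₀ r := by rw [hOd] at hx; exact hx.2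
    have h2 := (hball (e x) (Metric.ball_subset_closedBall h1)).2
    rw [← he, e.left_inv (hOs hx)] at h2
    exact h2
  have hWs : ∀ p ∈ Metric.ball p₀ r, e.symm p ∈ W ↔ p ∈ Metric.ball p₀ (r / 2) := by
    intro p hp
    rw [hWd]
    constructor
    · rintro ⟨_, h⟩
      rwa [mem_preimage, e.right_inv (hV hp)] at h
    · intro h
      refine ⟨e.map_target (hV hp), ?_⟩
      rwa [mem_preimage, e.right_inv (hV hp)]
  -- the cut-off function
  obtain ⟨φ, hφ⟩ : ∃ φ : ContDiffBump p₀, φ.rOut = r / 2 :=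
    ⟨⟨r / 4, r / 2, by positivity, by linarith⟩, rfl⟩
  obtain ⟨χ, D₁, hD₁, hχs, hχnn, hχ1, hχcs, hχt, hχ0, hχD⟩ := bump_pow φ ha ha1
  rw [hφ] at hχt hχ0
  have htV : Metric.closedBall p₀ (r / 2) ⊆ Metric.ball p₀ r :=
    Metric.closedBall_subset_ball (by linarith)
  refine ⟨W, hW, ?_, ?_⟩
  · rw [hWd]
    refine ⟨hzs, ?_⟩
    rw [mem_preimage, hez]
    exact Metric.mem_ball_self (by linarith)
  intro K w hK hUT
  obtain ⟨k, hk⟩ : ∃ k, k = Metric.ball p₀ r ∩ e.symm ⁻¹' K := ⟨_, rfl⟩
  have hVk : Metric.ball p₀ r \ k = Metric.ball p₀ r ∩ e.symm ⁻¹' Kᶜ := by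
    rw [hk]
    ext p
    simp only [Set.mem_sdiff, mem_inter_iff, mem_preimage, mem_compl_iff]
    tauto
  have hVko : IsOpen (Metric.ball p₀ r \ k) := by
    rw [hVk]
    have h1 : IsOpen (e.target ∩ e.symm ⁻¹' Kᶜ) := e.isOpen_inter_preimage_symm hK.isOpen_compl
    have h2 : Metric.ball p₀ r ∩ e.symm ⁻¹' Kᶜ = Metric.ball p₀ r ∩ (e.target ∩ e.symm ⁻¹' Kᶜ) := by
      rw [← inter_assoc, inter_eq_left.2 hV]
    rw [h2]
    exact Metric.isOpen_ball.inter h1
  have hsK : ∀ p ∈ Metric.ball p₀ r \ k, e.symm p ∉ K := by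
    intro p hp
    rw [hVk] at hp
    exact hp.2
  have hsymm : ContMDiffOn (𝓡 d) (𝓡 d) ∞ (chartAt (E d) z).symm (Metric.ball p₀ r) :=
    contMDiffOn_chart_symm.mono (by rw [← he]; exact hV)
  have hs1 : ContDiffOn ℝ ∞ (pb (chartAt (E d) z).symm w) (Metric.ball p₀ r \ k) :=
    hUT.smooth _ _ hVko (hsymm.mono sdiff_subset) (by rw [← he]; exact hsK)
  have hs2 : ∀ p ∈ Metric.ball p₀ r \ k, extDeriv (pb (chartAt (E d) z).symm w) p = 0 := by
    intro p hp
    have h1 := hUT.closed _ _ hVko (hsymm.mono sdiff_subset) (by rw [← he]; exact hsK) p hp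
    rw [h1, pb_zero]
    rfl
  obtain ⟨s', g1, g2, g4, g6, g7, g8⟩ := regV hSm (V := Metric.ball p₀ r) (k := k)
    (χ := χ) (s := pb (chartAt (E d) z).symm w) (a := a) (D₁ := D₁) ha ha1 hD₁
    Metric.isOpen_ball hVko (fun p hp => hUT.lc z p (by rw [← he]; exact hV hp))
    (fun p hp => hUT.mor z p (by rw [← he]; exact hV hp))
    (fun p hp => hUT.vm z p (by rw [← he]; exact hV hp))
    hχs hχnn hχ1 hχD hχcs (by rw [hχt]; exact htV) hs1 hs2
  -- the new singular set
  have hKW : IsClosed (K \ W) := by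
    rw [sdiff_eq]
    exact hK.inter hW.isClosed_compl
  have hset : (chartAt (E d) z '' O) \ (chartAt (E d) z '' ((K \ W) ∩ O)) =
      Metric.ball p₀ r \ (k ∩ {p | χ p = 0}) := by
    rw [← he, heO]
    ext p
    constructor
    · rintro ⟨hp, hn⟩
      refine ⟨hp, ?_⟩
      rintro ⟨h1, h2⟩
      apply hn
      rw [hk] at h1
      refine ⟨e.symm p, ⟨⟨h1.2, ?_⟩, ?_⟩, e.right_inv (hV hp)⟩
      · rw [hWs p hp]
        exact (hχ0 p).1 h2
      · rw [hOd]
        refine ⟨e.map_target (hV hp), ?_⟩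
        rwa [mem_preimage, e.right_inv (hV hp)]
    · rintro ⟨hp, hn⟩
      refine ⟨hp, ?_⟩
      rintro ⟨x, ⟨⟨hxK, hxW⟩, hxO⟩, rfl⟩
      apply hn
      have hxs := hOs hxO
      refine ⟨?_, ?_⟩
      · rw [hk]
        refine ⟨hp, ?_⟩
        change e.symm (e x) ∈ K
        rwa [e.left_inv hxs]
      · change χ (e x) = 0
        rw [hχ0, ← hWs _ hp, e.left_inv hxs]
        exact hxW
  obtain ⟨f1, f2, f3, f4⟩ := hPa d X z O K (K \ W) (Metric.closedBall p₀ (r / 2)) s' w hO
    (by rw [← he]; exact hOs) hKW sdiff_subset (isCompact_closedBall _ _)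
    (by rw [← he, heO]; exact htV)
    (by
      intro x hx hx2
      have hxW : x ∈ W := by
        by_contra h
        exact hx2 ⟨hx, h⟩
      refine ⟨hWO hxW, ?_⟩
      rw [← he]
      rw [hWd] at hxW
      exact Metric.ball_subset_closedBall hxW.2)
    (by rw [hset]; exact g1) (by rw [hset]; exact g2)
    (by
      intro p hp
      apply g4
      rw [hχ0]
      exact fun h => hp.2 (Metric.ball_subset_closedBall h))
    hUT.smooth hUT.closed
  have hout : ∀ x, x ∉ O → patch z O s' w x = w x := fun x hx => f3 x (Or.inl hx)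
  have hlc : ∀ z₂ : X, ∀ p ∈ (chartAt (E d) z₂).target,
      LCn (pb (chartAt (E d) z₂).symm (patch z O s' w)) p := by
    intro z₂ p hp
    by_cases hx : (chartAt (E d) z₂).symm p ∈ O
    · have hxb : e ((chartAt (E d) z₂).symm p) ∈ Metric.ball p₀ r := by
        rw [← heO]
        exact ⟨_, hx, rfl⟩
      have h1 : LCn (pb (chartAt (E d) z).symm (patch z O s' w))
          (e ((chartAt (E d) z₂).symm p)) := by
        obtain ⟨R, hR, hL⟩ := g6 _ hxb
        obtain ⟨R', hR', hRb⟩ := Metric.isOpen_iff.1 Metric.isOpen_ball _ hxb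
        refine ⟨min R R', lt_min hR hR', LCl.congr Metric.isOpen_ball
          (hL.mono (Metric.ball_subset_ball (min_le_left _ _))) fun q hq => ?_⟩
        apply f4
        rw [← he, heO]
        exact hRb (Metric.ball_subset_ball (min_le_right _ _) hq)
      refine LCn.trans (p₁ := e ((chartAt (E d) z₂).symm p)) ?_ hp ?_ h1
      · rw [← he]
        exact hV hxb
      · rw [← he]
        exact e.left_inv (hOs hx)
    · obtain ⟨R, hR, hL⟩ := hUT.lc z₂ p hp
      have hcl : IsClosed (e.symm '' Metric.closedBall p₀ (r / 2)) :=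
        ((isCompact_closedBall p₀ (r / 2)).image_of_continuousOn
          (e.continuousOn_symm.mono (htV.trans hV))).isClosed
      have hsub : e.symm '' Metric.closedBall p₀ (r / 2) ⊆ O := by
        rintro _ ⟨q, hq, rfl⟩
        rw [hOd]
        refine ⟨e.map_target (hV (htV hq)), ?_⟩
        rw [mem_preimage, e.right_inv (hV (htV hq))]
        exact htV hq
      have h1 : ∀ᶠ q in 𝓝 p, (chartAt (E d) z₂).symm q ∉ e.symm '' Metric.closedBall p₀ (r / 2) := by
        have h2 : ContinuousAt (chartAt (E d) z₂).symm p := (chartAt (E d) z₂).continuousAt_symm hp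
        exact h2.eventually (hcl.isOpen_compl.mem_nhds fun h => hx (hsub h))
      obtain ⟨R', hR', hRb⟩ := Metric.eventually_nhds_iff_ball.1 h1
      refine ⟨min R R', lt_min hR hR', LCl.congr Metric.isOpen_ball
        (hL.mono (Metric.ball_subset_ball (min_le_left _ _))) fun q hq => ?_⟩
      have hq' := hRb q (Metric.ball_subset_ball (min_le_right _ _) hq)
      apply pb_val
      by_cases hqO : (chartAt (E d) z₂).symm q ∈ O
      · refine f3 _ (Or.inr ?_)
        rw [← he]
        intro h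
        apply hq'
        exact ⟨_, h, e.left_inv (hOs hqO)⟩
      · exact hout _ hqO
  have hmr : ∀ z₂ : X, ∀ p ∈ (chartAt (E d) z₂).target,
      Mor a (pb (chartAt (E d) z₂).symm (patch z O s' w)) p := by
    intro z₂ p hp
    by_cases hx : (chartAt (E d) z₂).symm p ∈ O
    · have hxb : e ((chartAt (E d) z₂).symm p) ∈ Metric.ball p₀ r := by
        rw [← heO]
        exact ⟨_, hx, rfl⟩
      have h1 : Mor a (pb (chartAt (E d) z).symm (patch z O s' w))
          (e ((chartAt (E d) z₂).symm p)) := by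
        obtain ⟨R', hR', hRb⟩ := Metric.isOpen_iff.1 Metric.isOpen_ball _ hxb
        refine (g7 _ hxb).congr hR' fun q hq => ?_
        apply f4
        rw [← he, heO]
        exact hRb hq
      refine Mor.trans had (p₁ := e ((chartAt (E d) z₂).symm p)) ?_ hp ?_ h1
      · rw [← he]
        exact hV hxb
      · rw [← he]
        exact e.left_inv (hOs hx)
    · have hcl : IsClosed (e.symm '' Metric.closedBall p₀ (r / 2)) :=
        ((isCompact_closedBall p₀ (r / 2)).image_of_continuousOn
          (e.continuousOn_symm.mono (htV.trans hV))).isClosed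
      have hsub : e.symm '' Metric.closedBall p₀ (r / 2) ⊆ O := by
        rintro _ ⟨q, hq, rfl⟩
        rw [hOd]
        refine ⟨e.map_target (hV (htV hq)), ?_⟩
        rw [mem_preimage, e.right_inv (hV (htV hq))]
        exact htV hq
      have h1 : ∀ᶠ q in 𝓝 p, (chartAt (E d) z₂).symm q ∉ e.symm '' Metric.closedBall p₀ (r / 2) := by
        have h2 : ContinuousAt (chartAt (E d) z₂).symm p := (chartAt (E d) z₂).continuousAt_symm hp
        exact h2.eventually (hcl.isOpen_compl.mem_nhds fun h => hx (hsub h))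
      obtain ⟨R', hR', hRb⟩ := Metric.eventually_nhds_iff_ball.1 h1
      refine (hUT.mor z₂ p hp).congr hR' fun q hq => ?_
      have hq' := hRb q hq
      apply pb_val
      by_cases hqO : (chartAt (E d) z₂).symm q ∈ O
      · refine f3 _ (Or.inr ?_)
        rw [← he]
        intro h
        apply hq'
        exact ⟨_, h, e.left_inv (hOs hqO)⟩
      · exact hout _ hqO
  have hvr : ∀ z₂ : X, ∀ p ∈ (chartAt (E d) z₂).target,
      VMp (pb (chartAt (E d) z₂).symm (patch z O s' w)) p := by
    intro z₂ p hp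
    by_cases hx : (chartAt (E d) z₂).symm p ∈ O
    · have hxb : e ((chartAt (E d) z₂).symm p) ∈ Metric.ball p₀ r := by
        rw [← heO]
        exact ⟨_, hx, rfl⟩
      have h1 : VMp (pb (chartAt (E d) z).symm (patch z O s' w))
          (e ((chartAt (E d) z₂).symm p)) := by
        obtain ⟨R', hR', hRb⟩ := Metric.isOpen_iff.1 Metric.isOpen_ball _ hxb
        refine (g8 _ hxb).congr hR' fun q hq => ?_
        apply f4
        rw [← he, heO]
        exact hRb hq
      refine VMp.trans ha1 had (p₁ := e ((chartAt (E d) z₂).symm p)) ?_ hp ?_ (hlc z _ ?_)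
        (hmr z _ ?_) h1
      · rw [← he]
        exact hV hxb
      · rw [← he]
        exact e.left_inv (hOs hx)
      · rw [← he]
        exact hV hxb
      · rw [← he]
        exact hV hxb
    · have hcl : IsClosed (e.symm '' Metric.closedBall p₀ (r / 2)) :=
        ((isCompact_closedBall p₀ (r / 2)).image_of_continuousOn
          (e.continuousOn_symm.mono (htV.trans hV))).isClosed
      have hsub : e.symm '' Metric.closedBall p₀ (r / 2) ⊆ O := by
        rintro _ ⟨q, hq, rfl⟩
        rw [hOd]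
        refine ⟨e.map_target (hV (htV hq)), ?_⟩
        rw [mem_preimage, e.right_inv (hV (htV hq))]
        exact htV hq
      have h1 : ∀ᶠ q in 𝓝 p, (chartAt (E d) z₂).symm q ∉ e.symm '' Metric.closedBall p₀ (r / 2) := by
        have h2 : ContinuousAt (chartAt (E d) z₂).symm p := (chartAt (E d) z₂).continuousAt_symm hp
        exact h2.eventually (hcl.isOpen_compl.mem_nhds fun h => hx (hsub h))
      obtain ⟨R', hR', hRb⟩ := Metric.eventually_nhds_iff_ball.1 h1
      refine (hUT.vm z₂ p hp).congr hR' fun q hq => ?_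
      have hq' := hRb q hq
      apply pb_val
      by_cases hqO : (chartAt (E d) z₂).symm q ∈ O
      · refine f3 _ (Or.inr ?_)
        rw [← he]
        intro h
        apply hq'
        exact ⟨_, h, e.left_inv (hOs hqO)⟩
      · exact hout _ hqO
  exact ⟨patch z O s' w, ⟨f1, f2, hlc, hmr, hvr⟩, fun x hx => hout x fun h => hx (hOA h)⟩

/-- smooth nearly nondegenerate forms are nondegenerate -/
theorem vm_smooth {s : E d → (E d) [⋀^Fin 2]→L[ℝ] ℝ} {p : E d} (hs : ContinuousAt s p)
    (h : VMp s p) : ∃ c : ℝ, 0 < c ∧ NDg c (s p) := by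
  obtain ⟨c, R, hc, hR, h1⟩ := h
  obtain ⟨B, hB⟩ : ∃ B, B = (volume (Metric.ball (0 : E d) 1)).toReal := ⟨_, rfl⟩
  have hB0 : 0 < B := by
    rw [hB]
    exact ENNReal.toReal_pos (Metric.measure_ball_pos volume _ one_pos).ne'
      measure_ball_lt_top.ne
  obtain ⟨r, hr, h2⟩ := h1 (c / 8 * B) (by positivity)
  obtain ⟨r', hr', h3⟩ := Metric.continuousAt_iff.1 hs (c / 8) (by positivity)
  obtain ⟨t, ht, htr, htr'⟩ : ∃ t : ℝ, 0 < t ∧ t ≤ r ∧ t ≤ r' :=
    ⟨min r r', lt_min hr hr', min_le_left _ _, min_le_right _ _⟩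
  obtain ⟨C, hC, h4⟩ := h2 p (Metric.mem_ball_self hR) t ht htr
  have h5 : Metric.infDist (s p) C < c / 2 := by
    by_contra h
    rw [not_lt] at h
    have h6 : ∀ x ∈ Metric.ball p t, ENNReal.ofReal (3 * c / 8) ≤
        ENNReal.ofReal (Metric.infDist (s x) C) := by
      intro x hx
      refine ENNReal.ofReal_le_ofReal ?_
      have h7 := h3 (Metric.ball_subset_ball htr' hx)
      have h8 := Metric.infDist_le_infDist_add_dist (s := C) (x := s p) (y := s x)
      rw [dist_comm] at h8
      linarith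
    have h7 : ENNReal.ofReal (3 * c / 8) * volume (Metric.ball p t) ≤
        ENNReal.ofReal (c / 8 * B * t ^ d) := by
      refine le_trans ?_ h4
      rw [← setLIntegral_const]
      exact setLIntegral_mono' Metric.isOpen_ball.measurableSet h6
    rw [Measure.addHaar_ball_of_pos _ _ ht, finrank_euclideanSpace_fin,
      ← ENNReal.ofReal_toReal (measure_ball_lt_top (μ := volume) (x := (0 : E d)) (r := 1)).ne,
      ← hB, ← ENNReal.ofReal_mul (by positivity), ← ENNReal.ofReal_mul (by positivity),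
      ENNReal.ofReal_le_ofReal_iff (by positivity)] at h7
    have h8 : 0 < t ^ d * B := by positivity
    nlinarith
  obtain ⟨η, hη, h6⟩ := (Metric.infDist_lt_iff hC.ne).1 h5
  rw [dist_eq_norm] at h6
  refine ⟨c / 2, by positivity, ?_⟩
  exact ((hC.nd η hη).near h6.le).mono (by linarith)

end

end Pool.Agent.U896.VM
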