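import Pool.Agent.U896.VM.V5

/-!
# Nearly nondegenerate forms: the main theorem
-/

set_option autoImplicit false

open Set Filter Topology MeasureTheory
open scoped Manifold ContDiff ENNReal

noncomputable section

namespace Pool.Agent.U896.VM

open Pool.Agent.Y501.SY
open Pool.Agent.U896.SW
open Pool.Agent.U896.SV

section

variable {d : ℕ} {X : Type} [TopologicalSpace X] [ChartedSpace (E d) X] [IsManifold (𝓡 d) ∞ X]

theorem mainV {a : ℝ} (ha : 0 ≤ a) (ha1 : a < 1) (had : a ≤ d) (hSm : S_SM)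
    (hPa : S_PATCH2) [CompactSpace X] [T2Space X]
    {K : Set X} (hK : IsClosed K) {σ : Form d X 2} (hσ : UV a σ K)
    {U : Set X} (hU : IsOpen U) (hKU : K ⊆ U) :
    ∃ w : Form d X 2, IsSmooth w ∧ IsClosedForm w ∧
      (∀ z : X, ∃ c : ℝ, 0 < c ∧ NDg c (pb (chartAt (E d) z).symm w (chartAt (E d) z z))) ∧
      ∀ x, x ∉ U → w x = σ x := by
  classical
  choose! W hWo hWz hW using fun z (hz : z ∈ K) =>
    stepV (X := X) ha ha1 had hSm hPa hU (hKU hz)
  have hfin : ∀ t : Finset X, (∀ z ∈ t, z ∈ K) → ∃ w : Form d X 2,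
      UV a w (K \ ⋃ z ∈ t, W z) ∧ ∀ x, x ∉ U → w x = σ x := by
    intro t
    induction t using Finset.induction_on with
    | empty =>
      intro _
      refine ⟨σ, ?_, fun x _ => rfl⟩
      have : K \ ⋃ z ∈ (∅ : Finset X), W z = K := by simp
      rw [this]
      exact hσ
    | insert a t ha ih =>
      intro ht
      obtain ⟨w, hw, hwU⟩ := ih fun z hz => ht z (Finset.mem_insert_of_mem hz)
      have hop : IsOpen (⋃ z ∈ t, W z) :=
        isOpen_biUnion fun z hz => hWo z (ht z (Finset.mem_insert_of_mem hz))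
      have hcl : IsClosed (K \ ⋃ z ∈ t, W z) := by
        rw [sdiff_eq]
        exact hK.inter hop.isClosed_compl
      obtain ⟨w', hw', hwU'⟩ := hW a (ht a (Finset.mem_insert_self a t)) _ w hcl hw
      refine ⟨w', ?_, fun x hx => (hwU' x hx).trans (hwU x hx)⟩
      have h1 : ∀ S : Set X, S \ ⋃ z ∈ insert a t, W z = (S \ ⋃ z ∈ t, W z) \ W a := by
        intro S
        rw [Finset.set_biUnion_insert, union_comm, sdiff_sdiff_left]
        rfl
      rw [h1]
      exact hw'
  obtain ⟨t, htK, htc⟩ := hK.isCompact.elim_nhds_subcover W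
    (fun z hz => (hWo z hz).mem_nhds (hWz z hz))
  obtain ⟨w, hw, hwU⟩ := hfin t htK
  have hempty : K \ ⋃ z ∈ t, W z = ∅ := by
    rw [sdiff_eq_empty]
    exact htc
  rw [hempty] at hw
  have hsm : IsSmooth w := fun V φ hV hφ => hw.smooth V φ hV hφ fun p _ => notMem_empty _
  refine ⟨w, hsm, fun V φ hV hφ => hw.closed V φ hV hφ fun p _ => notMem_empty _,
    fun z => ?_, hwU⟩
  have hz := mem_chart_target (E d) z
  refine vm_smooth ?_ (hw.vm z _ hz)
  exact ((hsm _ _ (chartAt (E d) z).open_target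
    (contMDiffOn_chart_symm (x := z) (n := ∞) (I := 𝓡 d))).continuousOn).continuousAt
    ((chartAt (E d) z).open_target.mem_nhds hz)

end

end Pool.Agent.U896.VM
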